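import Mathlib

set_option autoImplicit false
open Matrix

namespace Pool.Agent.helper88.Mink

lemma finrank_homog (p : ℕ) :
    Module.finrank ℝ (MvPolynomial.homogeneousSubmodule (Fin 3) ℝ p) = (p + 2).choose p := by
  rw [MvPolynomial.homogeneousSubmodule_eq_finsupp_supported]
  have hset : {d : Fin 3 →₀ ℕ | d.degree = p} =
      ((Finset.univ : Finset (Fin 3)).finsuppAntidiag p : Set (Fin 3 →₀ ℕ)) := by
    ext d
    simp [Finset.mem_finsuppAntidiag, Finsupp.degree_eq_sum]
  rw [hset]
  rw [(AddMonoidAlgebra.supportedEquivFinsupp (R := ℝ) (S := ℝ)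
    (((Finset.univ : Finset (Fin 3)).finsuppAntidiag p : Set (Fin 3 →₀ ℕ)))).finrank_eq]
  rw [Module.finrank_finsupp_self]
  simp only [Finset.coe_sort_coe, Fintype.card_coe]
  rw [Finset.card_finsuppAntidiag_nat_eq_choose]
  simp
  congr 1
  omega

lemma choose_ne_eight (p : ℕ) : (p + 2).choose p ≠ 8 := by
  rcases Nat.lt_or_ge p 3 with h | h
  · interval_cases p <;> decide
  · have h1 : (3 + 2).choose 2 ≤ (p + 2).choose 2 := Nat.choose_le_choose 2 (by omega)
    have h2 : (p + 2).choose p = (p + 2).choose 2 := by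
      rw [Nat.choose_symm_add]
    rw [h2]
    have h3 : (3 + 2).choose 2 = 10 := by decide
    omega

end Pool.Agent.helper88.Mink
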