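import Mathlib

set_option autoImplicit false
open Matrix

namespace Pool.Agent.helper88.Mink

variable {n : ℕ}

/-- conjugation-invariant subspaces of the matrix space -/
def Inv (U : Submodule ℝ (Matrix (Fin n) (Fin n) ℝ)) : Prop :=
  ∀ T : SpecialLinearGroup (Fin n) ℝ, ∀ A ∈ U,
    (T : Matrix (Fin n) (Fin n) ℝ) * A * ((T⁻¹ : SpecialLinearGroup (Fin n) ℝ) :
      Matrix (Fin n) (Fin n) ℝ) ∈ U

lemma inv_of_mul_eq_one {T S : SpecialLinearGroup (Fin n) ℝ}
    (h : (T : Matrix (Fin n) (Fin n) ℝ) * S = 1) : T⁻¹ = S := by
  rw [inv_eq_iff_mul_eq_one]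
  ext1
  simpa using congrFun (congrFun h _) _

section
variable {U : Submodule ℝ (Matrix (Fin n) (Fin n) ℝ)} (hU : Inv U)

include hU in
lemma Inv.conj {i j : Fin n} (hij : i ≠ j) (c : ℝ) {A : Matrix (Fin n) (Fin n) ℝ} (hA : A ∈ U) :
    transvection i j c * A * transvection i j (-c) ∈ U := by
  have h := hU (SpecialLinearGroup.transvection hij c) A hA
  have h2 : (SpecialLinearGroup.transvection hij c)⁻¹ = SpecialLinearGroup.transvection hij (-c) := by
    rw [inv_eq_iff_mul_eq_one]
    apply Subtype.ext
    change transvection i j c * transvection i j (-c) = 1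
    rw [transvection_mul_transvection_same _ _ hij, add_neg_cancel, transvection_zero]
  rw [h2] at h
  exact h

include hU in
lemma Inv.both {i j : Fin n} (hij : i ≠ j) {A : Matrix (Fin n) (Fin n) ℝ} (hA : A ∈ U) :
    single i j 1 * A - A * single i j 1 ∈ U ∧ single i j 1 * A * single i j 1 ∈ U := by
  have h1 := hU.conj hij 1 hA
  have h2 := hU.conj hij (-1) hA
  have e1 : transvection i j (1 : ℝ) = 1 + single i j 1 := rfl
  have e2 : transvection i j (-1 : ℝ) = 1 - single i j 1 := by
    rw [transvection, sub_eq_add_neg]
    congr 1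
    ext a b
    rw [Matrix.neg_apply, single_apply, single_apply]
    split_ifs <;> simp
  rw [e1, e2] at h1
  rw [neg_neg, e1, e2] at h2
  set X : Matrix (Fin n) (Fin n) ℝ := single i j 1
  have h3 : (1 + X) * A * (1 - X) = A + (X * A - A * X) - X * A * X := by noncomm_ring
  have h4 : (1 - X) * A * (1 + X) = A - (X * A - A * X) - X * A * X := by noncomm_ring
  rw [h3] at h1
  rw [h4] at h2
  constructor
  · have h5 := U.smul_mem (1 / 2 : ℝ) (U.sub_mem h1 h2)
    have h6 : (1 / 2 : ℝ) • (A + (X * A - A * X) - X * A * X - (A - (X * A - A * X) - X * A * X)) =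
        X * A - A * X := by
      have : (A + (X * A - A * X) - X * A * X - (A - (X * A - A * X) - X * A * X)) =
        (2 : ℝ) • (X * A - A * X) := by
        rw [two_smul]; abel
      rw [this, smul_smul]
      norm_num
    rwa [h6] at h5
  · have h5 := U.smul_mem (1 / 2 : ℝ) (U.add_mem h1 h2)
    have h6 : (1 / 2 : ℝ) • (A + (X * A - A * X) - X * A * X + (A - (X * A - A * X) - X * A * X)) =
        A - X * A * X := by
      have : (A + (X * A - A * X) - X * A * X + (A - (X * A - A * X) - X * A * X)) =
        (2 : ℝ) • (A - X * A * X) := by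
        rw [two_smul]; abel
      rw [this, smul_smul]
      norm_num
    rw [h6] at h5
    have h7 := U.sub_mem hA h5
    rwa [sub_sub_cancel] at h7

include hU in
lemma Inv.single_of_apply {i j : Fin n} (hij : i ≠ j) {A : Matrix (Fin n) (Fin n) ℝ} (hA : A ∈ U)
    (h : A j i ≠ 0) : single i j (1 : ℝ) ∈ U := by
  have h1 := (hU.both hij hA).2
  rw [single_mul_mul_single] at h1
  have h2 := U.smul_mem (A j i)⁻¹ h1
  have h3 : (A j i)⁻¹ • single i j (1 * A j i * 1) = single i j (1 : ℝ) := by
    rw [smul_single]
    congr 1
    simp [h]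
  rwa [h3] at h2

include hU in
lemma Inv.flip {i j : Fin n} (hij : i ≠ j) (h : single i j (1 : ℝ) ∈ U) :
    single j i (1 : ℝ) ∈ U :=
  hU.single_of_apply hij.symm h (by simp)

include hU in
lemma Inv.left {i j k : Fin n} (hki : k ≠ i) (hkj : k ≠ j) (h : single i j (1 : ℝ) ∈ U) :
    single k j (1 : ℝ) ∈ U := by
  have h1 := (hU.both hki h).1
  have h2 : single i j (1 : ℝ) * single k i 1 = 0 := by simp [hkj.symm]
  rw [single_mul_single_same, h2] at h1
  simpa using h1

include hU in
/-- if one off-diagonal elementary matrix is in `U`, then all are -/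
lemma Inv.all {i j : Fin n} (hij : i ≠ j) (h : single i j (1 : ℝ) ∈ U) (k l : Fin n)
    (hkl : k ≠ l) : single k l (1 : ℝ) ∈ U := by
  -- columns j
  have h1 : ∀ a, a ≠ j → single a j (1 : ℝ) ∈ U := by
    intro a ha
    rcases eq_or_ne a i with rfl | hai
    · exact h
    · exact hU.left hai ha h
  -- rows j
  have h2 : ∀ a, a ≠ j → single j a (1 : ℝ) ∈ U := fun a ha => hU.flip ha (h1 a ha)
  rcases eq_or_ne k j with rfl | hk
  · exact h2 l hkl.symm
  rcases eq_or_ne l j with rfl | hl
  · exact h1 k hk
  · exact hU.left hk hkl (h2 l hl)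

include hU in
lemma Inv.eq_top (hn : 2 ≤ n) {A : Matrix (Fin n) (Fin n) ℝ} (hA : A ∈ U) (hA0 : A ≠ 0)
    (htr : trace A = 0) {B : Matrix (Fin n) (Fin n) ℝ} (hB : trace B = 0) : B ∈ U := by
  have hall : ∀ k l : Fin n, k ≠ l → single k l (1 : ℝ) ∈ U := by
    by_cases hoff : ∃ i j : Fin n, i ≠ j ∧ A j i ≠ 0
    · obtain ⟨i, j, hij, h⟩ := hoff
      exact hU.all hij (hU.single_of_apply hij hA h)
    · push Not at hoff
      -- A is diagonal and not scalar
      have hdiag : ∃ i j : Fin n, i ≠ j ∧ A i i ≠ A j j := by
        by_contra hcon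
        push Not at hcon
        have h0 : ∀ i j : Fin n, A i i = A j j := by
          intro i j
          rcases eq_or_ne i j with rfl | hij
          · rfl
          · exact hcon i j hij
        apply hA0
        have hz : ∀ i : Fin n, A i i = 0 := by
          intro i
          have h1 : trace A = n * A i i := by
            rw [trace, Finset.sum_congr rfl (fun j _ => (show diag A j = A i i from h0 j i))]
            simp
          rw [htr] at h1
          have h2 : (n : ℝ) ≠ 0 := by
            have : 0 < n := by omega
            exact_mod_cast this.ne'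
          exact (mul_eq_zero.1 h1.symm).resolve_left h2
        ext i j
        rcases eq_or_ne i j with rfl | hij
        · simpa using hz i
        · simpa using hoff j i hij.symm
      obtain ⟨i, j, hij, h⟩ := hdiag
      have h1 := (hU.both hij hA).1
      have h2 : single i j 1 * A - A * single i j 1 = (A j j - A i i) • single i j (1 : ℝ) := by
        ext a b
        rw [Matrix.sub_apply, Matrix.smul_apply, smul_eq_mul, mul_apply, mul_apply]
        simp only [single_apply, ite_mul, one_mul, zero_mul, mul_ite, mul_one, mul_zero]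
        by_cases ha : i = a
        · subst ha
          by_cases hb : j = b
          · subst hb
            simp [Finset.sum_ite_eq]
          · have : A j b = 0 := hoff b j (Ne.symm hb)
            simp [hb, this, Finset.sum_ite_eq]
        · by_cases hb : j = b
          · subst hb
            have : A a i = 0 := hoff i a ha
            simp [ha, this, Finset.sum_ite_eq]
          · simp [ha, hb]
      rw [h2] at h1
      have h3 := U.smul_mem (A j j - A i i)⁻¹ h1
      rw [smul_smul, inv_mul_cancel₀ (sub_ne_zero.2 h.symm), one_smul] at h3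
      exact hU.all hij h3
  -- differences of diagonal elementary matrices
  have hdd : ∀ i j : Fin n, single i i (1 : ℝ) - single j j 1 ∈ U := by
    intro i j
    rcases eq_or_ne i j with rfl | hij
    · simp
    · have h1 := (hU.both hij (hall j i hij.symm)).1
      rwa [single_mul_single_same, single_mul_single_same, one_mul] at h1
  -- decomposition
  have hn0 : 0 < n := by omega
  set o : Fin n := ⟨0, hn0⟩
  have hdec : B = ∑ i, ∑ j, (B i j) • (single i j (1 : ℝ) - if i = j then single o o 1 else 0) := by
    have h1 : ∀ i : Fin n, ∑ j, (B i j) • (single i j (1 : ℝ) - if i = j then single o o 1 else 0) =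
        ∑ j, single i j (B i j) - B i i • single o o (1 : ℝ) := by
      intro i
      simp_rw [smul_sub]
      rw [Finset.sum_sub_distrib]
      congr 1
      · refine Finset.sum_congr rfl fun j _ => ?_
        rw [smul_single, smul_eq_mul, mul_one]
      · simp
    rw [Finset.sum_congr rfl (fun i _ => h1 i), Finset.sum_sub_distrib, ← matrix_eq_sum_single,
      ← Finset.sum_smul]
    have : ∑ i, B i i = 0 := hB
    rw [this, zero_smul, sub_zero]
  rw [hdec]
  refine U.sum_mem fun i _ => U.sum_mem fun j _ => U.smul_mem _ ?_
  by_cases hij : i = j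
  · subst hij
    simpa using hdd i o
  · simpa [hij] using hall i j hij

end

end Pool.Agent.helper88.Mink
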