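import Pool.Agent.helper88.Mink.Ball
import Pool.Agent.helper88.Mink.Irred

set_option autoImplicit false
open Matrix Set Filter Topology MeasureTheory
open scoped Pointwise

namespace Pool.Agent.helper88.Mink

variable {n : ℕ}

/-- trace-zero matrices -/
abbrev W0 (n : ℕ) : Submodule ℝ (Matrix (Fin n) (Fin n) ℝ) :=
  LinearMap.ker (traceLinearMap (Fin n) ℝ ℝ)

lemma mem_W0 {A : Matrix (Fin n) (Fin n) ℝ} : A ∈ W0 n ↔ trace A = 0 := by
  rw [LinearMap.mem_ker, traceLinearMap_apply]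

lemma finrank_W0_three : Module.finrank ℝ (W0 3) = 8 := by
  have h := LinearMap.finrank_range_add_finrank_ker (traceLinearMap (Fin 3) ℝ ℝ)
  have h1 : Module.finrank ℝ (Matrix (Fin 3) (Fin 3) ℝ) = 9 := by
    rw [Module.finrank_matrix]
    simp
  have h2 : LinearMap.range (traceLinearMap (Fin 3) ℝ ℝ) = ⊤ := by
    rw [LinearMap.range_eq_top]
    intro c
    refine ⟨single 0 0 c, ?_⟩
    rw [traceLinearMap_apply, trace_single_eq_same]
  rw [h1, h2, finrank_top, Module.finrank_self] at h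
  have h3 : Module.finrank ℝ (W0 3) + 1 = 9 := by
    rw [add_comm]
    exact h
  omega

/-- conjugation on all matrices -/
noncomputable def AdM (T : SpecialLinearGroup (Fin n) ℝ) :
    Matrix (Fin n) (Fin n) ℝ →ₗ[ℝ] Matrix (Fin n) (Fin n) ℝ where
  toFun A := (T : Matrix (Fin n) (Fin n) ℝ) * A *
    ((T⁻¹ : SpecialLinearGroup (Fin n) ℝ) : Matrix (Fin n) (Fin n) ℝ)
  map_add' A B := by rw [Matrix.mul_add, Matrix.add_mul]
  map_smul' c A := by simp

lemma coe_mul_inv (T : SpecialLinearGroup (Fin n) ℝ) : (T : Matrix (Fin n) (Fin n) ℝ) *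
    ((T⁻¹ : SpecialLinearGroup (Fin n) ℝ) : Matrix (Fin n) (Fin n) ℝ) = 1 :=
  congrArg Subtype.val (mul_inv_cancel T)

lemma coe_inv_mul (T : SpecialLinearGroup (Fin n) ℝ) :
    ((T⁻¹ : SpecialLinearGroup (Fin n) ℝ) : Matrix (Fin n) (Fin n) ℝ) *
    (T : Matrix (Fin n) (Fin n) ℝ) = 1 :=
  congrArg Subtype.val (inv_mul_cancel T)

lemma trace_AdM (T : SpecialLinearGroup (Fin n) ℝ) (A : Matrix (Fin n) (Fin n) ℝ) :
    trace (AdM T A) = trace A := by
  change trace ((T : Matrix (Fin n) (Fin n) ℝ) * A * _) = _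
  rw [Matrix.trace_mul_comm, ← Matrix.mul_assoc, coe_inv_mul, Matrix.one_mul]

/-- conjugation on trace-zero matrices -/
noncomputable def Ad : SpecialLinearGroup (Fin n) ℝ →* Module.End ℝ (W0 n) where
  toFun T := (AdM T).restrict (fun A hA => by
    rw [mem_W0] at hA ⊢
    rw [trace_AdM, hA])
  map_one' := by
    ext A : 2
    change AdM 1 A.1 = A.1
    change ((1 : SpecialLinearGroup (Fin n) ℝ) : Matrix (Fin n) (Fin n) ℝ) * A.1 *
      (((1 : SpecialLinearGroup (Fin n) ℝ)⁻¹ : SpecialLinearGroup (Fin n) ℝ) :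
        Matrix (Fin n) (Fin n) ℝ) = A.1
    rw [inv_one]
    change (1 : Matrix (Fin n) (Fin n) ℝ) * A.1 * (1 : Matrix (Fin n) (Fin n) ℝ) = A.1
    rw [Matrix.one_mul, Matrix.mul_one]
  map_mul' S T := by
    ext A : 2
    change AdM (S * T) A.1 = AdM S (AdM T A.1)
    simp only [AdM, LinearMap.coe_mk, AddHom.coe_mk]
    rw [_root_.mul_inv_rev]
    change (S.1 * T.1) * A.1 * ((T⁻¹).1 * (S⁻¹).1) = S.1 * (T.1 * A.1 * (T⁻¹).1) * (S⁻¹).1
    simp only [Matrix.mul_assoc]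

lemma Ad_coe (T : SpecialLinearGroup (Fin n) ℝ) (A : W0 n) : ((Ad T A : W0 n) :
    Matrix (Fin n) (Fin n) ℝ) = (T : Matrix (Fin n) (Fin n) ℝ) * A.1 *
    ((T⁻¹ : SpecialLinearGroup (Fin n) ℝ) : Matrix (Fin n) (Fin n) ℝ) := rfl

/-- the trace-free part of the elementary tensor -/
noncomputable def G (z : (Fin n → ℝ) × (Fin n → ℝ)) : Matrix (Fin n) (Fin n) ℝ :=
  vecMulVec z.1 z.2 - ((z.1 ⬝ᵥ z.2) / n) • (1 : Matrix (Fin n) (Fin n) ℝ)

lemma G_mem (hn : 0 < n) (z : (Fin n → ℝ) × (Fin n → ℝ)) : G z ∈ W0 n := by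
  rw [mem_W0, G, trace_sub, trace_smul, trace_one, trace_vecMulVec]
  have : (n : ℝ) ≠ 0 := by exact_mod_cast hn.ne'
  rw [Fintype.card_fin, smul_eq_mul]
  field_simp
  ring

/-- the trace-free part as an element of `W0` -/
noncomputable def G0 (hn : 0 < n) (z : (Fin n → ℝ) × (Fin n → ℝ)) : W0 n := ⟨G z, G_mem hn z⟩

lemma cont_G : Continuous (G : (Fin n → ℝ) × (Fin n → ℝ) → Matrix (Fin n) (Fin n) ℝ) := by
  have h1 : Continuous fun z : (Fin n → ℝ) × (Fin n → ℝ) => vecMulVec z.1 z.2 :=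
    Continuous.matrix_vecMulVec continuous_fst continuous_snd
  have h2 : Continuous fun z : (Fin n → ℝ) × (Fin n → ℝ) => (z.1 ⬝ᵥ z.2) / n :=
    (Continuous.dotProduct continuous_fst continuous_snd).div_const _
  exact h1.sub (h2.smul continuous_const)

lemma cont_G0 (hn : 0 < n) : Continuous (G0 hn : (Fin n → ℝ) × (Fin n → ℝ) → W0 n) :=
  cont_G.subtype_mk _

lemma G_equiv {B B' : Matrix (Fin n) (Fin n) ℝ} (h : B * B' = 1) (h' : B' * B = 1)
    (x y : Fin n → ℝ) :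
    G (B *ᵥ x, B'ᵀ *ᵥ y) = B * G (x, y) * B' := by
  simp only [G]
  rw [Matrix.mul_sub, Matrix.sub_mul, mul_vecMulVec, vecMulVec_mul, mulVec_transpose]
  congr 1
  have h1 : (B *ᵥ x) ⬝ᵥ (y ᵥ* B') = x ⬝ᵥ y := by
    rw [← mulVec_transpose, dotProduct_transpose_mulVec, mulVec_mulVec, h', one_mulVec,
      dotProduct_comm]
  rw [h1, Matrix.mul_smul, Matrix.smul_mul, Matrix.mul_one, h]

lemma G_ne (hn : 2 ≤ n) : G ((Pi.single (⟨0, by omega⟩ : Fin n) 1 : Fin n → ℝ),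
    (Pi.single (⟨0, by omega⟩ : Fin n) 1 : Fin n → ℝ)) ≠ 0 := by
  intro h
  have h1 := congrFun (congrFun h ⟨0, by omega⟩) ⟨0, by omega⟩
  simp only [G, Matrix.sub_apply, vecMulVec_apply, Pi.single_eq_same, Matrix.smul_apply,
    Matrix.one_apply_eq, Matrix.zero_apply, dotProduct_single, smul_eq_mul, mul_one] at h1
  have h2 : (2 : ℝ) ≤ n := by exact_mod_cast hn
  have h3 : (1 : ℝ) / n ≤ 1 / 2 := one_div_le_one_div_of_le (by norm_num) h2
  linarith

lemma en_single (hn : 2 ≤ n) : en (Pi.single (⟨0, by omega⟩ : Fin n) 1 : Fin n → ℝ) = 1 := by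
  simp [en]

/-- the representation in coordinates -/
noncomputable def rhoM {m : ℕ} (e : W0 n ≃ₗ[ℝ] (Fin m → ℝ)) :
    SpecialLinearGroup (Fin n) ℝ →* Matrix (Fin m) (Fin m) ℝ where
  toFun T := LinearMap.toMatrix' (e.toLinearMap ∘ₗ Ad T ∘ₗ e.symm.toLinearMap)
  map_one' := by
    rw [map_one]
    have : (e.toLinearMap ∘ₗ (1 : Module.End ℝ (W0 n)) ∘ₗ e.symm.toLinearMap) = LinearMap.id := by
      ext x : 2
      simp
    rw [this, LinearMap.toMatrix'_id]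
  map_mul' S T := by
    rw [← LinearMap.toMatrix'_comp, map_mul]
    congr 1
    ext x : 2
    simp

lemma rhoM_mulVec {m : ℕ} (e : W0 n ≃ₗ[ℝ] (Fin m → ℝ)) (T : SpecialLinearGroup (Fin n) ℝ)
    (w : Fin m → ℝ) : (rhoM e T) *ᵥ w = e (Ad T (e.symm w)) := by
  change (LinearMap.toMatrix' (e.toLinearMap ∘ₗ Ad T ∘ₗ e.symm.toLinearMap)) *ᵥ w = _
  rw [LinearMap.toMatrix'_mulVec]
  rfl

/-- as a group homomorphism -/
noncomputable def rho {m : ℕ} (e : W0 n ≃ₗ[ℝ] (Fin m → ℝ)) :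
    SpecialLinearGroup (Fin n) ℝ →* GeneralLinearGroup (Fin m) ℝ := (rhoM e).toHomUnits

lemma rho_val {m : ℕ} (e : W0 n ≃ₗ[ℝ] (Fin m → ℝ)) (T : SpecialLinearGroup (Fin n) ℝ) :
    (rho e T).val = rhoM e T := rfl

lemma rho_cont {m : ℕ} (e : W0 n ≃ₗ[ℝ] (Fin m → ℝ)) :
    Continuous (fun A : {A : Matrix (Fin n) (Fin n) ℝ // A.det = 1} =>
      (rho e (⟨A.1, A.2⟩ : Matrix.SpecialLinearGroup (Fin n) ℝ)).val) := by
  refine continuous_matrix fun i j => ?_
  have h1 : ∀ A : {A : Matrix (Fin n) (Fin n) ℝ // A.det = 1},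
      (rho e (⟨A.1, A.2⟩ : Matrix.SpecialLinearGroup (Fin n) ℝ)).val i j =
      e (Ad (⟨A.1, A.2⟩ : Matrix.SpecialLinearGroup (Fin n) ℝ) (e.symm (Pi.single j 1))) i := by
    intro A
    have h := congrFun (rhoM_mulVec e (⟨A.1, A.2⟩ : Matrix.SpecialLinearGroup (Fin n) ℝ)
      (Pi.single j 1)) i
    rw [mulVec_single_one] at h
    exact h
  simp_rw [h1]
  refine (continuous_apply i).comp ((LinearMap.continuous_of_finiteDimensional
    e.toLinearMap).comp ?_)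
  refine Continuous.subtype_mk ?_ _
  change Continuous (fun a : {A : Matrix (Fin n) (Fin n) ℝ // A.det = 1} =>
    a.1 * (e.symm (Pi.single j 1)).1 * adjugate a.1)
  exact Continuous.matrix_mul (Continuous.matrix_mul continuous_subtype_val continuous_const)
    (Continuous.matrix_adjugate continuous_subtype_val)

lemma rho_irred (hn : 2 ≤ n) {m : ℕ} (e : W0 n ≃ₗ[ℝ] (Fin m → ℝ)) (U : Submodule ℝ (Fin m → ℝ))
    (hU : ∀ T : Matrix.SpecialLinearGroup (Fin n) ℝ, ∀ w ∈ U,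
      Matrix.mulVec (rho e T).val w ∈ U) : U = ⊥ ∨ U = ⊤ := by
  by_cases hbot : U = ⊥
  · exact Or.inl hbot
  right
  obtain ⟨w, hw, hw0⟩ := Submodule.exists_mem_ne_zero_of_ne_bot hbot
  -- the corresponding space of matrices
  set U' : Submodule ℝ (Matrix (Fin n) (Fin n) ℝ) :=
    (U.comap e.toLinearMap).map (W0 n).subtype with hU'
  have hmem : ∀ A : W0 n, (A : Matrix (Fin n) (Fin n) ℝ) ∈ U' ↔ e A ∈ U := by
    intro A
    rw [hU', Submodule.mem_map]
    constructor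
    · rintro ⟨B, hB, hBA⟩
      have : B = A := Subtype.ext hBA
      rw [← this]
      exact hB
    · intro h
      exact ⟨A, h, rfl⟩
  have hinv : Inv U' := by
    rintro T _ ⟨A, hA, rfl⟩
    have h1 := hU T (e A) hA
    rw [rho_val, rhoM_mulVec, LinearEquiv.symm_apply_apply, ← hmem] at h1
    exact h1
  have hA : ((e.symm w : W0 n) : Matrix (Fin n) (Fin n) ℝ) ∈ U' := by
    rw [hmem, LinearEquiv.apply_symm_apply]
    exact hw
  have hA0 : ((e.symm w : W0 n) : Matrix (Fin n) (Fin n) ℝ) ≠ 0 := by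
    intro h
    apply hw0
    have : e.symm w = 0 := Subtype.ext h
    simpa using this
  rw [eq_top_iff]
  intro x _
  have h2 := hinv.eq_top hn hA hA0 (mem_W0.1 (e.symm w).2) (mem_W0.1 (e.symm x).2)
  rw [hmem, LinearEquiv.apply_symm_apply] at h2
  exact h2

/-- the equivariant function -/
noncomputable def FF (hn : 0 < n) {m : ℕ} (e : W0 n ≃ₗ[ℝ] (Fin m → ℝ))
    (z : (Fin n → ℝ) × (Fin n → ℝ)) : Fin m → ℝ := e (G0 hn z)

lemma cont_FF (hn : 0 < n) {m : ℕ} (e : W0 n ≃ₗ[ℝ] (Fin m → ℝ)) : Continuous (FF hn e) :=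
  (LinearMap.continuous_of_finiteDimensional e.toLinearMap).comp (cont_G0 hn)

lemma FF_equiv (hn : 0 < n) {m : ℕ} (e : W0 n ≃ₗ[ℝ] (Fin m → ℝ))
    (T : SpecialLinearGroup (Fin n) ℝ) (x y : Fin n → ℝ) :
    FF hn e ((T : Matrix (Fin n) (Fin n) ℝ) *ᵥ x,
      ((T⁻¹ : SpecialLinearGroup (Fin n) ℝ) : Matrix (Fin n) (Fin n) ℝ)ᵀ *ᵥ y) =
      Matrix.mulVec (rho e T).val (FF hn e (x, y)) := by
  rw [rho_val, rhoM_mulVec, FF, FF, LinearEquiv.symm_apply_apply]
  congr 1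
  apply Subtype.ext
  rw [Ad_coe]
  exact G_equiv (coe_mul_inv T) (coe_inv_mul T) x y

lemma Phi_invariant (hn : 0 < n) {m : ℕ} (e : W0 n ≃ₗ[ℝ] (Fin m → ℝ))
    (T : SpecialLinearGroup (Fin n) ℝ) {K : Set (Fin n → ℝ)} (hK : Body K) :
    Matrix.mulVec (rho e T).val '' Phi (FF hn e) (Matrix.mulVec
      ((T⁻¹ : SpecialLinearGroup (Fin n) ℝ) : Matrix (Fin n) (Fin n) ℝ) '' K) =
      Phi (FF hn e) K := by
  have h1 : ∀ S S' : SpecialLinearGroup (Fin n) ℝ, S * S' = 1 → ∀ w,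
      (rho e S).val *ᵥ ((rho e S').val *ᵥ w) = w := by
    intro S S' hS w
    rw [mulVec_mulVec, ← Units.val_mul, ← map_mul, hS, map_one, Units.val_one, one_mulVec]
  have h2 := Phi_image (cont_FF hn e) (coe_inv_mul T) (coe_mul_inv T) (T⁻¹).2 hK
    (R := Matrix.mulVecLin (rho e T⁻¹).val) (R' := Matrix.mulVecLin (rho e T).val)
    (fun w => h1 _ _ (inv_mul_cancel T) w) (fun w => h1 _ _ (mul_inv_cancel T) w)
    (by
      intro x y
      have := FF_equiv hn e T⁻¹ x y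
      rw [inv_inv] at this
      exact this)
  change Matrix.mulVec (rho e T).val '' Phi (FF hn e) ((fun x => Matrix.mulVec
      ((T⁻¹ : SpecialLinearGroup (Fin n) ℝ) : Matrix (Fin n) (Fin n) ℝ) x) '' K) = _
  rw [h2, image_image]
  have h3 : ∀ w, (rho e T).val *ᵥ (Matrix.mulVecLin (rho e T⁻¹).val w) = w :=
    fun w => h1 _ _ (mul_inv_cancel T) w
  simp only [h3, image_id']

end Pool.Agent.helper88.Mink
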