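import Pool.Agent.helper88.Mink.Phi

set_option autoImplicit false
open MeasureTheory Set Filter Topology Matrix
open scoped Pointwise ENNReal NNReal

namespace Pool.Agent.helper88.Mink

variable {n : ℕ} {E : Type*} [NormedAddCommGroup E] [NormedSpace ℝ E] [FiniteDimensional ℝ E]

/-! ### polytopes -/

lemma supp_hull {t : Set (Fin n → ℝ)} (ht : t.Finite) (hne : t.Nonempty)
    (y : Fin n → ℝ) : ∃ x ∈ t, x ⬝ᵥ y = supp (convexHull ℝ t) y := by
  obtain ⟨x, hx, hmax⟩ := ht.isCompact.exists_isMaxOn hne (cont_dot y).continuousOn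
  refine ⟨x, hx, le_antisymm ?_ ?_⟩
  · exact le_supp (ht.isCompact_convexHull ℝ) (subset_convexHull ℝ t hx) y
  · apply supp_le (hne.mono (subset_convexHull ℝ t))
    intro z hz
    have hconv : Convex ℝ {z : Fin n → ℝ | z ⬝ᵥ y ≤ x ⬝ᵥ y} := by
      intro a ha b hb s r hs hr hsr
      simp only [mem_ofPred_eq] at ha hb ⊢
      rw [add_dotProduct, smul_dotProduct, smul_dotProduct, smul_eq_mul, smul_eq_mul]
      have : r = 1 - s := by linarith
      subst this
      nlinarith
    exact convexHull_min (fun w hw => hmax hw) hconv hz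

lemma Th_polytope (hn : 2 ≤ n) {t : Set (Fin n → ℝ)} (ht : t.Finite) (hne : t.Nonempty)
    (hK : Body (convexHull ℝ t)) :
    Th (gauge (convexHull ℝ t)) (supp (convexHull ℝ t)) = 0 := by
  have P := hK.pair
  set p := gauge (convexHull ℝ t)
  set h := supp (convexHull ℝ t) with hh
  have hS : MeasurableSet {z : (Fin n → ℝ) × (Fin n → ℝ) | z.1 ∈ t} :=
    measurable_fst ht.measurableSet
  -- the dual measure lives over the vertices
  have h1 : ((M h).map Prod.swap) {z | z.1 ∈ t}ᶜ = 0 := by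
    rw [Measure.map_apply measurable_swap hS.compl, M_apply P.nh (measurable_swap hS.compl),
      measure_eq_zero_iff_ae_notMem]
    filter_upwards [P.nh.ae_diff] with y hd
    rintro ⟨_, hy⟩
    apply hy
    obtain ⟨x, hx, hxy⟩ := supp_hull ht hne y
    have h2 : grad h y = x := P.symm.grad_eq hd
      ((hK.mem_iff x).1 (subset_convexHull ℝ t hx)) (by rw [dotProduct_comm]; exact hxy)
    change grad h y ∈ t
    rw [h2]
    exact hx
  -- the first measure does not charge the vertices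
  have h2 : (M p) {z | z.1 ∈ t} = 0 := by
    rw [M_apply P.np hS]
    have hsub : {v | p v ≤ 1 ∧ nb p v ∈ {z : (Fin n → ℝ) × (Fin n → ℝ) | z.1 ∈ t}} ⊆
        ⋃ x ∈ t, (Submodule.span ℝ {x} : Set (Fin n → ℝ)) := by
      rintro v ⟨_, hv⟩
      simp only [nb, mem_ofPred_eq] at hv
      simp only [mem_iUnion]
      refine ⟨_, hv, ?_⟩
      rcases eq_or_ne v 0 with rfl | hv0
      · exact Submodule.zero_mem _
      · have hp := P.np.pos v hv0
        exact Submodule.mem_span_singleton.2 ⟨p v, by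
          rw [smul_smul, mul_inv_cancel₀ hp.ne', one_smul]⟩
    refine measure_mono_null hsub ?_
    rw [measure_biUnion_null_iff ht.countable]
    intro x _
    apply Measure.addHaar_submodule
    intro htop
    have h3 : Module.finrank ℝ (Submodule.span ℝ {x} : Submodule ℝ (Fin n → ℝ)) ≤ 1 :=
      (finrank_span_le_card ({x} : Set (Fin n → ℝ))).trans (by simp)
    rw [htop, finrank_top, Module.finrank_fin_fun] at h3
    omega
  have h3 : Th p h {z | z.1 ∈ t} = 0 :=
    le_antisymm ((Th_le_left p h _).trans h2.le) bot_le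
  have h4 : Th p h {z | z.1 ∈ t}ᶜ = 0 :=
    le_antisymm ((Th_le_right p h _).trans h1.le) bot_le
  rw [← Measure.measure_univ_eq_zero, ← union_compl_self {z : (Fin n → ℝ) × (Fin n → ℝ) | z.1 ∈ t}]
  exact measure_union_null h3 h4

lemma Phi_polytope {F : (Fin n → ℝ) × (Fin n → ℝ) → E} (hn : 2 ≤ n) {t : Set (Fin n → ℝ)}
    (ht : t.Finite) (hne : t.Nonempty) (hK : Body (convexHull ℝ t)) :
    Phi F (convexHull ℝ t) = {0} := by
  have h0 : ∀ ξ : E →ₗ[ℝ] ℝ, HH F (convexHull ℝ t) ξ = 0 := by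
    intro ξ
    rw [HH, Th_polytope hn ht hne hK, integral_zero_measure]
  ext w
  rw [mem_singleton_iff]
  constructor
  · intro hw
    rw [← Module.forall_dual_apply_eq_zero_iff ℝ]
    intro ξ
    have h1 := hw ξ
    have h2 := hw (-ξ)
    rw [h0] at h1 h2
    rw [LinearMap.neg_apply] at h2
    linarith
  · rintro rfl ξ
    rw [h0, map_zero]

/-! ### the Euclidean ball -/

/-- the Euclidean norm -/
noncomputable def en (x : Fin n → ℝ) : ℝ := √(x ⬝ᵥ x)

lemma dot_self_nonneg (x : Fin n → ℝ) : 0 ≤ x ⬝ᵥ x :=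
  Finset.sum_nonneg fun i _ => mul_self_nonneg (x i)

lemma en_hom (t : ℝ) (ht : 0 ≤ t) (v : Fin n → ℝ) : en (t • v) = t * en v := by
  rw [en, en, smul_dotProduct, dotProduct_smul, smul_eq_mul, smul_eq_mul, ← mul_assoc,
    Real.sqrt_mul (mul_self_nonneg t), Real.sqrt_mul_self ht]

lemma en_pos (v : Fin n → ℝ) (hv : v ≠ 0) : 0 < en v := by
  apply Real.sqrt_pos.2
  exact lt_of_le_of_ne (dot_self_nonneg v) (fun h => hv (dotProduct_self_eq_zero.1 h.symm))

lemma en_sq (v : Fin n → ℝ) : en v * en v = v ⬝ᵥ v := Real.mul_self_sqrt (dot_self_nonneg v)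

lemma cs (x y : Fin n → ℝ) : x ⬝ᵥ y ≤ en x * en y := by
  have h := Finset.sum_mul_sq_le_sq_mul_sq Finset.univ x y
  have h1 : (x ⬝ᵥ y) ^ 2 ≤ (en x * en y) ^ 2 := by
    rw [mul_pow, sq (en x), sq (en y), en_sq, en_sq]
    simpa [dotProduct, sq] using h
  exact (le_abs_self _).trans (abs_le_of_sq_le_sq h1
    (mul_nonneg (Real.sqrt_nonneg _) (Real.sqrt_nonneg _)))

/-- the Euclidean unit ball -/
def EB (n : ℕ) : Set (Fin n → ℝ) := {x | x ⬝ᵥ x ≤ 1}

lemma cont_self_dot : Continuous (fun x : Fin n → ℝ => x ⬝ᵥ x) := by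
  simp only [dotProduct]
  fun_prop

lemma cont_en : Continuous (en : (Fin n → ℝ) → ℝ) := cont_self_dot.sqrt

lemma mem_EB_iff (x : Fin n → ℝ) : x ∈ EB n ↔ en x ≤ 1 := by
  rw [EB, mem_ofPred_eq, en, Real.sqrt_le_left zero_le_one, one_pow]

lemma norm_le_en (x : Fin n → ℝ) : ‖x‖ ≤ en x := by
  refine (pi_norm_le_iff_of_nonneg (Real.sqrt_nonneg _)).2 fun i => ?_
  rw [Real.norm_eq_abs]
  apply Real.abs_le_sqrt
  rw [sq]
  exact Finset.single_le_sum (f := fun i => x i * x i) (fun i _ => mul_self_nonneg _)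
    (Finset.mem_univ i)

lemma body_EB : Body (EB n) where
  comp := by
    refine Metric.isCompact_of_isClosed_isBounded (isClosed_le cont_self_dot continuous_const) ?_
    refine (Metric.isBounded_closedBall (x := (0 : Fin n → ℝ)) (r := 1)).subset fun x hx => ?_
    rw [mem_closedBall_zero_iff]
    exact (norm_le_en x).trans ((mem_EB_iff x).1 hx)
  conv := by
    intro x hx y hy a b ha hb hab
    rw [mem_EB_iff] at hx hy
    have h1 := cs x y
    have h2 := en_sq x
    have h3 := en_sq y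
    have h4 : 0 ≤ en x := Real.sqrt_nonneg _
    have h5 : 0 ≤ en y := Real.sqrt_nonneg _
    simp only [EB, mem_ofPred_eq, add_dotProduct, dotProduct_add, smul_dotProduct,
      dotProduct_smul, smul_eq_mul]
    rw [dotProduct_comm y x, ← h2, ← h3]
    have h6 : x ⬝ᵥ y ≤ 1 := h1.trans (by nlinarith)
    have h7 : en x * en x ≤ 1 := by nlinarith
    have h8 : en y * en y ≤ 1 := by nlinarith
    have : b = 1 - a := by linarith
    subst this
    nlinarith [mul_nonneg ha hb, mul_nonneg ha ha, mul_nonneg hb hb]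
  zint := by
    rw [mem_interior_iff_mem_nhds]
    have h := (cont_self_dot (n := n)).tendsto 0
    rw [zero_dotProduct] at h
    exact h.eventually (eventually_le_nhds zero_lt_one)

lemma gauge_EB : gauge (EB n) = en := by
  refine body_EB.gauge_eq_of_mem ?_ en_pos en_hom mem_EB_iff
  simp [en]

lemma supp_EB : supp (EB n) = en := by
  ext y
  apply le_antisymm
  · apply supp_le body_EB.nonempty
    intro x hx
    rw [mem_EB_iff] at hx
    have h1 := cs x y
    have h4 : 0 ≤ en x := Real.sqrt_nonneg _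
    have h5 : 0 ≤ en y := Real.sqrt_nonneg _
    nlinarith
  · rcases eq_or_ne y 0 with rfl | hy
    · have := body_EB.nice_supp.nonneg (0 : Fin n → ℝ)
      simpa [en] using this
    · have h1 := en_pos y hy
      have h2 : (en y)⁻¹ • y ∈ EB n := by
        rw [mem_EB_iff, en_hom _ (by positivity), inv_mul_cancel₀ h1.ne']
      have h3 := le_supp body_EB.comp h2 y
      rw [smul_dotProduct, smul_eq_mul, ← en_sq, ← mul_assoc, inv_mul_cancel₀ h1.ne',
        one_mul] at h3
      exact h3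

lemma pair_en : Pair (en : (Fin n → ℝ) → ℝ) en := by
  have := (body_EB (n := n)).pair
  rwa [gauge_EB, supp_EB] at this

lemma nb_en (hn : 0 < n) : ∀ᵐ v ∂(volume : Measure (Fin n → ℝ)),
    nb en v = ((en v)⁻¹ • v, (en v)⁻¹ • v) := by
  filter_upwards [(pair_en (n := n)).np.ae_diff, ae_ne_zero hn] with v hd hv
  have h1 := en_pos v hv
  rw [nb, pair_en.grad_eq hd (y := (en v)⁻¹ • v)]
  · rw [en_hom _ (by positivity), inv_mul_cancel₀ h1.ne']
  · rw [dotProduct_smul, smul_eq_mul, ← en_sq, ← mul_assoc, inv_mul_cancel₀ h1.ne', one_mul]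

lemma M_en_swap (hn : 0 < n) : (M (en : (Fin n → ℝ) → ℝ)).map Prod.swap = M en := by
  have hm := measurable_nb (pair_en (n := n)).np
  rw [M, Measure.map_map measurable_swap hm]
  apply Measure.map_congr
  refine ae_restrict_of_ae ?_
  filter_upwards [nb_en hn] with v hv
  simp only [Function.comp_apply, hv, Prod.swap_prod_mk]

lemma Th_en (hn : 0 < n) : Th (en : (Fin n → ℝ) → ℝ) en = M en := by
  rw [Th, M_en_swap hn, inf_idem]

lemma HH_ball_pos (hn : 0 < n) {F : (Fin n → ℝ) × (Fin n → ℝ) → E} (hF : Continuous F)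
    {u : Fin n → ℝ} (hu : en u = 1) (hFu : F (u, u) ≠ 0) :
    ∃ ξ : E →ₗ[ℝ] ℝ, 0 < HH F (EB n) ξ := by
  obtain ⟨ξ, hξ⟩ : ∃ ξ : E →ₗ[ℝ] ℝ, 0 < ξ (F (u, u)) := by
    by_contra hcon
    push Not at hcon
    apply hFu
    rw [← Module.forall_dual_apply_eq_zero_iff ℝ]
    intro ξ
    have h1 := hcon ξ
    have h2 := hcon (-ξ)
    rw [LinearMap.neg_apply] at h2
    linarith
  refine ⟨ξ, ?_⟩
  have hM := M_finite (pair_en (n := n)).np
  rw [HH, gauge_EB, supp_EB, Th_en hn]
  refine (integral_pos_iff_support_of_nonneg (f := fun z => max 0 (ξ (F z)))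
    (fun z => le_max_left _ _) (integrable_M hn pair_en (cont_max hF ξ))).2 ?_
  have hsupp : Function.support (fun z => max 0 (ξ (F z))) = {z | 0 < ξ (F z)} := by
    ext z
    simp only [Function.mem_support, mem_ofPred_eq]
    constructor
    · intro h
      by_contra h'
      exact h (max_eq_left (not_lt.1 h'))
    · intro h
      rw [max_eq_right h.le]
      exact h.ne'
  have hopen : IsOpen {z | 0 < ξ (F z)} :=
    isOpen_lt continuous_const (ξ.continuous_of_finiteDimensional.comp hF)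
  rw [hsupp, M_apply pair_en.np hopen.measurableSet]
  -- a neighbourhood
  set v₀ : Fin n → ℝ := (1 / 2 : ℝ) • u with hv₀
  have hen : en v₀ = 1 / 2 := by rw [hv₀, en_hom _ (by norm_num), hu]; norm_num
  have hv₀' : en v₀ ≠ 0 := by rw [hen]; norm_num
  have hnb : (en v₀)⁻¹ • v₀ = u := by
    rw [hen, hv₀, smul_smul]
    norm_num
  have hct : ContinuousAt (fun v : Fin n → ℝ => ((en v)⁻¹ • v, (en v)⁻¹ • v)) v₀ := by
    have : ContinuousAt (fun v : Fin n → ℝ => (en v)⁻¹ • v) v₀ :=
      (cont_en.continuousAt.inv₀ hv₀').smul continuousAt_id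
    exact this.prodMk this
  have hev1 : ∀ᶠ v in 𝓝 v₀, ((en v)⁻¹ • v, (en v)⁻¹ • v) ∈ {z | 0 < ξ (F z)} := by
    apply hct.eventually_mem
    refine hopen.mem_nhds ?_
    simp only [hnb, mem_ofPred_eq]
    exact hξ
  have hev2 : ∀ᶠ v in 𝓝 v₀, en v ≤ 1 := by
    have := (cont_en (n := n)).tendsto v₀
    exact this.eventually (eventually_le_nhds (by rw [hen]; norm_num))
  have hpos : 0 < volume {v : Fin n → ℝ | en v ≤ 1 ∧
      ((en v)⁻¹ • v, (en v)⁻¹ • v) ∈ {z | 0 < ξ (F z)}} :=
    Measure.measure_pos_of_mem_nhds _ (hev2.and hev1)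
  refine lt_of_lt_of_le hpos (measure_mono_ae ?_)
  filter_upwards [nb_en hn] with v hv
  rintro ⟨h1, h2⟩
  refine ⟨h1, ?_⟩
  rw [hv]
  exact h2

lemma Phi_ball_ne (hn : 0 < n) {F : (Fin n → ℝ) × (Fin n → ℝ) → E} (hF : Continuous F)
    {u : Fin n → ℝ} (hu : en u = 1) (hFu : F (u, u) ≠ 0) : Phi F (EB n) ≠ {0} := by
  intro h
  obtain ⟨ξ, hξ⟩ := HH_ball_pos hn hF hu hFu
  obtain ⟨w, hw, hw'⟩ := CC_attain (HH_sub hF hn body_EB) ξ
  have : w ∈ Phi F (EB n) := hw
  rw [h, mem_singleton_iff] at this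
  rw [this, map_zero] at hw'
  linarith

/-! ### approximation of the ball by polytopes -/

lemma exists_polytope (n : ℕ) {r : ℝ} (hr : 0 < r) :
    ∃ t : Set (Fin n → ℝ), t.Finite ∧ t.Nonempty ∧ Body (convexHull ℝ t) ∧
      Metric.hausdorffDist (convexHull ℝ t) (EB n) ≤ r := by
  obtain ⟨t, htB, htf, hcov⟩ := (body_EB (n := n)).comp.finite_cover_balls hr
  set e : Set (Fin n → ℝ) := range (fun i : Fin n => (Pi.single i 1 : Fin n → ℝ)) ∪
    range (fun i : Fin n => (-Pi.single i 1 : Fin n → ℝ)) with he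
  have hef : e.Finite := (finite_range _).union (finite_range _)
  have heB : e ⊆ EB n := by
    rintro x (⟨i, rfl⟩ | ⟨i, rfl⟩) <;> simp [EB]
  have h0B : (0 : Fin n → ℝ) ∈ EB n := by simp [EB]
  set s : Set (Fin n → ℝ) := insert 0 (t ∪ e) with hs
  have hsf : s.Finite := (htf.union hef).insert 0
  have hsB : s ⊆ EB n := insert_subset h0B (union_subset htB heB)
  have hsub : convexHull ℝ s ⊆ EB n := convexHull_min hsB body_EB.conv
  have hne : s.Nonempty := ⟨0, mem_insert _ _⟩
  refine ⟨s, hsf, hne, ⟨hsf.isCompact_convexHull ℝ, convex_convexHull ℝ s, ?_⟩, ?_⟩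
  · rw [mem_interior_iff_mem_nhds, Metric.mem_nhds_iff]
    refine ⟨1 / (n + 1), by positivity, fun x hx => ?_⟩
    rw [mem_ball_zero_iff] at hx
    have hx' : ∀ i, |x i| ≤ 1 / (n + 1) := fun i => (norm_le_pi_norm x i).trans hx.le
    rcases Nat.eq_zero_or_pos n with h0 | hpos
    · subst h0
      have : x = 0 := Subsingleton.elim _ _
      rw [this]
      exact subset_convexHull ℝ s (mem_insert _ _)
    have hn0 : (0 : ℝ) < n := by exact_mod_cast hpos
    have hx1 : x = ∑ i : Fin n, (1 / (n : ℝ)) • ((n * x i) • (Pi.single i 1 : Fin n → ℝ)) := by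
      ext j
      simp only [Finset.sum_apply, Pi.smul_apply, smul_eq_mul, Pi.single_apply, mul_ite, mul_one,
        mul_zero, Finset.sum_ite_eq, Finset.mem_univ, if_true]
      field_simp
    rw [hx1]
    refine (convex_convexHull ℝ s).sum_mem (fun i _ => by positivity) (by simp; field_simp) ?_
    intro i _
    have h1 : (Pi.single i 1 : Fin n → ℝ) ∈ convexHull ℝ s :=
      subset_convexHull ℝ s (Or.inr (Or.inr (Or.inl ⟨i, rfl⟩)))
    have h2 : (-Pi.single i 1 : Fin n → ℝ) ∈ convexHull ℝ s :=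
      subset_convexHull ℝ s (Or.inr (Or.inr (Or.inr ⟨i, rfl⟩)))
    have h3 : |n * x i| ≤ 1 := by
      rw [abs_mul, abs_of_pos hn0]
      calc (n : ℝ) * |x i| ≤ n * (1 / (n + 1)) := by
            gcongr
            exact hx' i
        _ ≤ 1 := by
            rw [mul_one_div, div_le_one (by positivity)]
            linarith
    obtain ⟨h4, h5⟩ := abs_le.1 h3
    have h6 : ((n : ℝ) * x i) • (Pi.single i 1 : Fin n → ℝ) =
        ((1 + n * x i) / 2) • (Pi.single i 1 : Fin n → ℝ) +
        ((1 - n * x i) / 2) • (-Pi.single i 1 : Fin n → ℝ) := by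
      rw [smul_neg, ← sub_eq_add_neg, ← sub_smul]
      congr 1
      ring
    rw [h6]
    exact (convex_convexHull ℝ s) h1 h2 (by linarith) (by linarith) (by ring)
  · refine Metric.hausdorffDist_le_of_mem_dist hr.le ?_ ?_
    · intro x hx
      exact ⟨x, hsub hx, by rw [dist_self]; exact hr.le⟩
    · intro x hx
      obtain ⟨y, hy, hxy⟩ := mem_iUnion₂.1 (hcov hx)
      exact ⟨y, subset_convexHull ℝ s (Or.inr (Or.inl hy)), (Metric.mem_ball.1 hxy).le⟩

/-- the valuation is not continuous -/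
lemma Phi_not_cont (hn : 2 ≤ n) {F : (Fin n → ℝ) × (Fin n → ℝ) → E} (hF : Continuous F)
    {u : Fin n → ℝ} (hu : en u = 1) (hFu : F (u, u) ≠ 0) :
    ∃ (Ks : ℕ → Set (Fin n → ℝ)) (K : Set (Fin n → ℝ)), (∀ j, Body (Ks j)) ∧ Body K ∧
      Tendsto (fun j => Metric.hausdorffDist (Ks j) K) atTop (𝓝 0) ∧
      ¬ Tendsto (fun j => Metric.hausdorffDist (Phi F (Ks j)) (Phi F K)) atTop (𝓝 0) := by
  have hr : ∀ j : ℕ, (0 : ℝ) < 1 / (j + 1) := fun j => by positivity
  choose t htf htne htb htd using fun j : ℕ => exists_polytope n (hr j)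
  refine ⟨fun j => convexHull ℝ (t j), EB n, htb, body_EB, ?_, ?_⟩
  · refine squeeze_zero (fun j => Metric.hausdorffDist_nonneg) htd ?_
    exact tendsto_one_div_add_atTop_nhds_zero_nat
  · intro hlim
    have h1 : ∀ j, Phi F (convexHull ℝ (t j)) = {0} := fun j =>
      Phi_polytope hn (htf j) (htne j) (htb j)
    simp_rw [h1] at hlim
    have h2 := tendsto_nhds_unique hlim tendsto_const_nhds
    have hn0 : 0 < n := by omega
    have hcomp : IsCompact (Phi F (EB n)) := CC_compact _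
    have hne : (Phi F (EB n)).Nonempty := Phi_nonempty hF hn0 body_EB
    rw [eq_comm, IsClosed.hausdorffDist_zero_iff_eq isClosed_singleton hcomp.isClosed
      (Metric.hausdorffEDist_ne_top_of_nonempty_of_bounded (singleton_nonempty 0) hne
        Bornology.isBounded_singleton hcomp.isBounded)] at h2
    exact Phi_ball_ne hn0 hF hu hFu h2.symm

end Pool.Agent.helper88.Mink
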