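import Pool.Agent.helper88.Mink.Pair

set_option autoImplicit false
open MeasureTheory Set Filter Topology Matrix
open scoped Pointwise ENNReal NNReal

namespace Pool.Agent.helper88.Mink

variable {n : ℕ}

/-- convex bodies containing the origin in the interior -/
structure Body (K : Set (Fin n → ℝ)) : Prop where
  comp : IsCompact K
  conv : Convex ℝ K
  zint : (0 : Fin n → ℝ) ∈ interior K

/-- support function -/
noncomputable def supp (K : Set (Fin n → ℝ)) (y : Fin n → ℝ) : ℝ :=
  sSup ((fun x => x ⬝ᵥ y) '' K)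

lemma cont_dot (y : Fin n → ℝ) : Continuous (fun x : Fin n → ℝ => x ⬝ᵥ y) := by
  simp only [dotProduct]
  fun_prop

lemma supp_attain {K : Set (Fin n → ℝ)} (hK : IsCompact K) (hne : K.Nonempty) (y : Fin n → ℝ) :
    ∃ x ∈ K, x ⬝ᵥ y = supp K y := by
  have := (hK.image (cont_dot y)).sSup_mem (hne.image _)
  exact this

lemma le_supp {K : Set (Fin n → ℝ)} (hK : IsCompact K) {x : Fin n → ℝ} (hx : x ∈ K)
    (y : Fin n → ℝ) : x ⬝ᵥ y ≤ supp K y :=
  le_csSup (hK.image (cont_dot y)).bddAbove (mem_image_of_mem _ hx)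

lemma supp_le {K : Set (Fin n → ℝ)} (hne : K.Nonempty) {y : Fin n → ℝ} {c : ℝ}
    (h : ∀ x ∈ K, x ⬝ᵥ y ≤ c) : supp K y ≤ c := by
  refine csSup_le (hne.image _) ?_
  rintro _ ⟨x, hx, rfl⟩
  exact h x hx

namespace Body
variable {K L : Set (Fin n → ℝ)}

lemma nonempty (hK : Body K) : K.Nonempty := ⟨0, interior_subset hK.zint⟩

lemma nhds (hK : Body K) : K ∈ 𝓝 (0 : Fin n → ℝ) := mem_interior_iff_mem_nhds.1 hK.zint

lemma mem_iff (hK : Body K) (x : Fin n → ℝ) : x ∈ K ↔ gauge K x ≤ 1 := by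
  rw [gauge_le_one_iff_mem_closure hK.conv hK.nhds, hK.comp.isClosed.closure_eq]

lemma nice_gauge (hK : Body K) : Nice (gauge K) where
  hom := fun t ht v => by rw [gauge_smul_of_nonneg ht, smul_eq_mul]
  sub := fun v w => gauge_add_le hK.conv (absorbent_nhds_zero hK.nhds) v w
  pos := fun v hv => (gauge_pos (absorbent_nhds_zero hK.nhds)
    (NormedSpace.isVonNBounded_of_isBounded ℝ hK.comp.isBounded)).2 hv

lemma nice_supp (hK : Body K) : Nice (supp K) where
  hom := fun t ht y => by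
    apply le_antisymm
    · apply supp_le hK.nonempty
      intro x hx
      rw [dotProduct_smul, smul_eq_mul]
      exact mul_le_mul_of_nonneg_left (le_supp hK.comp hx y) ht
    · obtain ⟨x, hx, h⟩ := supp_attain hK.comp hK.nonempty y
      rw [← h]
      have := le_supp hK.comp hx (t • y)
      rwa [dotProduct_smul, smul_eq_mul] at this
  sub := fun y z => by
    apply supp_le hK.nonempty
    intro x hx
    rw [dotProduct_add]
    exact add_le_add (le_supp hK.comp hx y) (le_supp hK.comp hx z)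
  pos := fun y hy => by
    have h1 : Tendsto (fun t : ℝ => t • y) (𝓝[>] 0) (𝓝 0) := by
      have : Tendsto (fun t : ℝ => t • y) (𝓝 0) (𝓝 ((0 : ℝ) • y)) :=
        (continuous_id.smul continuous_const).tendsto 0
      rw [zero_smul] at this
      exact this.mono_left nhdsWithin_le_nhds
    have h2 := (h1.eventually hK.nhds).and self_mem_nhdsWithin
    obtain ⟨t, ht, htp⟩ := h2.exists
    have h3 := le_supp hK.comp (show t • y ∈ K from ht) y
    rw [smul_dotProduct, smul_eq_mul] at h3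
    have h4 : 0 < y ⬝ᵥ y := by
      have : y ⬝ᵥ y ≠ 0 := by
        simpa [dotProduct_self_eq_zero] using hy
      exact lt_of_le_of_ne (by
        simp only [dotProduct]
        exact Finset.sum_nonneg fun i _ => mul_self_nonneg _) this.symm
    have h5 : 0 < t := htp
    nlinarith [mul_pos h5 h4]

lemma pair (hK : Body K) : Pair (gauge K) (supp K) where
  np := hK.nice_gauge
  nh := hK.nice_supp
  le := fun x y => by
    rcases eq_or_ne x 0 with rfl | hx
    · simp [hK.nice_gauge.zero]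
    · have hg := hK.nice_gauge.pos x hx
      have h1 : (gauge K x)⁻¹ • x ∈ K := by
        rw [hK.mem_iff, hK.nice_gauge.hom _ (by positivity), inv_mul_cancel₀ hg.ne']
      have h2 := le_supp hK.comp h1 y
      rw [smul_dotProduct, smul_eq_mul, inv_mul_eq_div, div_le_iff₀ hg] at h2
      linarith
  ap := fun x => by
    obtain ⟨g, h1, h2⟩ := exists_supporting (gauge K)
      (fun c hc x => hK.nice_gauge.hom c hc.le x) hK.nice_gauge.sub x
    have hg : ∀ z, z ⬝ᵥ (fun i => g (Pi.single i 1)) = g z := by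
      intro z
      have hz : z = ∑ i : Fin n, z i • (Pi.single i 1 : Fin n → ℝ) := by
        ext j
        simp [Finset.sum_apply, Pi.single_apply]
      conv_rhs => rw [hz]
      rw [map_sum]
      simp [dotProduct]
    refine ⟨fun i => g (Pi.single i 1), ?_, ?_⟩
    · apply supp_le hK.nonempty
      intro z hz
      rw [hg]
      exact (h2 z).trans ((hK.mem_iff z).1 hz)
    · rw [hg, h1]
  ah := fun y => by
    obtain ⟨x, hx, h⟩ := supp_attain hK.comp hK.nonempty y
    exact ⟨x, (hK.mem_iff x).1 hx, h⟩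

lemma union (hK : Body K) (hL : Body L) (hc : Convex ℝ (K ∪ L)) : Body (K ∪ L) where
  comp := hK.comp.union hL.comp
  conv := hc
  zint := interior_mono subset_union_left hK.zint

lemma inter (hK : Body K) (hL : Body L) : Body (K ∩ L) where
  comp := hK.comp.inter hL.comp
  conv := hK.conv.inter hL.conv
  zint := by rw [interior_inter]; exact ⟨hK.zint, hL.zint⟩

/-- the gauge is determined by its unit ball -/
lemma gauge_eq_of_mem {q : (Fin n → ℝ) → ℝ} (hK : Body K) (hq0 : q 0 = 0)
    (hpos : ∀ x, x ≠ 0 → 0 < q x)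
    (hom : ∀ t : ℝ, 0 ≤ t → ∀ v, q (t • v) = t * q v)
    (h : ∀ x, x ∈ K ↔ q x ≤ 1) : gauge K = q := by
  ext x
  rcases eq_or_ne x 0 with rfl | hx
  · rw [hK.nice_gauge.zero, hq0]
  have h1 := hK.nice_gauge.pos x hx
  have h2 := hpos x hx
  apply le_antisymm
  · have : (q x)⁻¹ • x ∈ K := by
      rw [h, hom _ (by positivity), inv_mul_cancel₀ h2.ne']
    rw [hK.mem_iff, hK.nice_gauge.hom _ (by positivity), inv_mul_eq_div, div_le_one h2] at this
    exact this
  · have : (gauge K x)⁻¹ • x ∈ K := by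
      rw [hK.mem_iff, hK.nice_gauge.hom _ (by positivity), inv_mul_cancel₀ h1.ne']
    rw [h, hom _ (by positivity), inv_mul_eq_div, div_le_one h1] at this
    exact this

lemma gauge_union (hK : Body K) (hL : Body L) (hc : Convex ℝ (K ∪ L)) :
    gauge (K ∪ L) = fun x => min (gauge K x) (gauge L x) := by
  refine gauge_eq_of_mem (hK.union hL hc) ?_ ?_ ?_ ?_
  · simp [hK.nice_gauge.zero, hL.nice_gauge.zero]
  · intro x hx
    exact lt_min (hK.nice_gauge.pos x hx) (hL.nice_gauge.pos x hx)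
  · intro t ht v
    rw [hK.nice_gauge.hom t ht, hL.nice_gauge.hom t ht, mul_min_of_nonneg _ _ ht]
  · intro x
    rw [mem_union, hK.mem_iff, hL.mem_iff, min_le_iff]

lemma gauge_inter (hK : Body K) (hL : Body L) :
    gauge (K ∩ L) = fun x => max (gauge K x) (gauge L x) := by
  refine gauge_eq_of_mem (hK.inter hL) ?_ ?_ ?_ ?_
  · simp [hK.nice_gauge.zero, hL.nice_gauge.zero]
  · intro x hx
    exact lt_max_of_lt_left (hK.nice_gauge.pos x hx)
  · intro t ht v
    rw [hK.nice_gauge.hom t ht, hL.nice_gauge.hom t ht, mul_max_of_nonneg _ _ ht]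
  · intro x
    rw [mem_inter_iff, hK.mem_iff, hL.mem_iff, max_le_iff]

lemma supp_union (hK : Body K) (hL : Body L) :
    supp (K ∪ L) = fun y => max (supp K y) (supp L y) := by
  ext y
  apply le_antisymm
  · apply supp_le (hK.nonempty.mono subset_union_left)
    rintro x (hx | hx)
    · exact (le_supp hK.comp hx y).trans (le_max_left _ _)
    · exact (le_supp hL.comp hx y).trans (le_max_right _ _)
  · apply max_le
    · apply supp_le hK.nonempty
      intro x hx
      exact le_supp (hK.comp.union hL.comp) (mem_union_left _ hx) y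
    · apply supp_le hL.nonempty
      intro x hx
      exact le_supp (hK.comp.union hL.comp) (mem_union_right _ hx) y

lemma supp_inter (hK : Body K) (hL : Body L) (hc : Convex ℝ (K ∪ L)) :
    supp (K ∩ L) = fun y => min (supp K y) (supp L y) := by
  ext y
  apply le_antisymm
  · apply le_min
    · apply supp_le (hK.inter hL).nonempty
      intro x hx
      exact le_supp hK.comp hx.1 y
    · apply supp_le (hK.inter hL).nonempty
      intro x hx
      exact le_supp hL.comp hx.2 y
  · obtain ⟨x1, hx1, h1⟩ := supp_attain hK.comp hK.nonempty y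
    obtain ⟨x2, hx2, h2⟩ := supp_attain hL.comp hL.nonempty y
    have hseg : segment ℝ x1 x2 ⊆ K ∪ L := hc.segment_subset (Or.inl hx1) (Or.inr hx2)
    have hpre : IsPreconnected (segment ℝ x1 x2) := (convex_segment x1 x2).isPreconnected
    obtain ⟨z, hz, hzK, hzL⟩ := isPreconnected_closed_iff.1 hpre K L hK.comp.isClosed
      hL.comp.isClosed hseg ⟨x1, left_mem_segment ℝ x1 x2, hx1⟩
      ⟨x2, right_mem_segment ℝ x1 x2, hx2⟩
    have h3 : min (supp K y) (supp L y) ≤ z ⬝ᵥ y := by
      rw [← h1, ← h2]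
      obtain ⟨a, b, ha, hb, hab, rfl⟩ := hz
      rw [add_dotProduct, smul_dotProduct, smul_dotProduct, smul_eq_mul, smul_eq_mul]
      have h4 := min_le_left (x1 ⬝ᵥ y) (x2 ⬝ᵥ y)
      have h5 := min_le_right (x1 ⬝ᵥ y) (x2 ⬝ᵥ y)
      have : a = 1 - b := by linarith
      subst this
      nlinarith
    exact h3.trans (le_supp (hK.comp.inter hL.comp) ⟨hzK, hzL⟩ y)

end Body

lemma dot_le_norm (x y : Fin n → ℝ) : x ⬝ᵥ y ≤ n * ‖x‖ * ‖y‖ := by
  calc x ⬝ᵥ y ≤ ∑ _i : Fin n, ‖x‖ * ‖y‖ := by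
        refine Finset.sum_le_sum fun i _ => ?_
        calc x i * y i ≤ |x i * y i| := le_abs_self _
          _ = |x i| * |y i| := abs_mul _ _
          _ ≤ ‖x‖ * ‖y‖ := mul_le_mul (norm_le_pi_norm x i) (norm_le_pi_norm y i)
              (abs_nonneg _) (norm_nonneg _)
    _ = n * ‖x‖ * ‖y‖ := by
        rw [Finset.sum_const, Finset.card_univ, Fintype.card_fin, nsmul_eq_mul, mul_assoc]

/-- uniform multiplicative convergence -/
def Conv (ps : ℕ → (Fin n → ℝ) → ℝ) (p : (Fin n → ℝ) → ℝ) : Prop :=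
  ∀ ε > 0, ∀ᶠ j in atTop, ∀ y, ps j y ≤ (1 + ε) * p y ∧ p y ≤ (1 + ε) * ps j y

lemma Conv.dual {ps hs : ℕ → (Fin n → ℝ) → ℝ} {p h : (Fin n → ℝ) → ℝ}
    (Ps : ∀ j, Pair (ps j) (hs j)) (P : Pair p h) (hc : Conv hs h) : Conv ps p := by
  intro ε hε
  filter_upwards [hc ε hε] with j hj x
  constructor
  · exact (Ps j).le_of_le P (by positivity) (fun y => (hj y).2) x
  · exact P.le_of_le (Ps j) (by positivity) (fun y => (hj y).1) x

lemma supp_le_of_close {K L : Set (Fin n → ℝ)} (hK : Body K) (hL : Body L) {δ : ℝ}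
    (h : Metric.hausdorffDist K L < δ) (y : Fin n → ℝ) :
    supp K y ≤ supp L y + n * δ * ‖y‖ := by
  apply supp_le hK.nonempty
  intro x hx
  obtain ⟨x', hx', hd⟩ := Metric.exists_dist_lt_of_hausdorffDist_lt hx h
    (Metric.hausdorffEDist_ne_top_of_nonempty_of_bounded hK.nonempty hL.nonempty
      hK.comp.isBounded hL.comp.isBounded)
  have h1 : x ⬝ᵥ y = x' ⬝ᵥ y + (x - x') ⬝ᵥ y := by
    rw [← add_dotProduct]; congr 1; abel
  have h2 := dot_le_norm (x - x') y
  have h3 := le_supp hL.comp hx' y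
  rw [dist_eq_norm] at hd
  have h4 : (n : ℝ) * ‖x - x'‖ * ‖y‖ ≤ n * δ * ‖y‖ := by
    gcongr
  linarith

lemma conv_supp {Ks : ℕ → Set (Fin n → ℝ)} {K : Set (Fin n → ℝ)} (hKs : ∀ j, Body (Ks j))
    (hK : Body K) (h : Tendsto (fun j => Metric.hausdorffDist (Ks j) K) atTop (𝓝 0)) :
    Conv (fun j => supp (Ks j)) (supp K) := by
  intro ε hε
  obtain ⟨c, hc, hlow⟩ := hK.nice_supp.exists_lower
  set δ : ℝ := c * (ε / (1 + ε)) / (n + 1) with hδ
  have hδ0 : 0 < δ := by positivity
  have hev : ∀ᶠ j in atTop, Metric.hausdorffDist (Ks j) K < δ :=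
    (tendsto_order.1 h).2 _ hδ0
  filter_upwards [hev] with j hj y
  have h1 := supp_le_of_close (hKs j) hK hj y
  have h2 := supp_le_of_close hK (hKs j) (by rwa [Metric.hausdorffDist_comm]) y
  have h3 := hlow y
  have h4 : (n : ℝ) * δ * ‖y‖ ≤ (ε / (1 + ε)) * supp K y := by
    have h5 : (n : ℝ) * δ ≤ c * (ε / (1 + ε)) := by
      rw [hδ, mul_div_assoc', div_le_iff₀ (by positivity)]
      have : 0 < c * (ε / (1 + ε)) := by positivity
      nlinarith
    calc (n : ℝ) * δ * ‖y‖ ≤ c * (ε / (1 + ε)) * ‖y‖ := by gcongr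
      _ = (ε / (1 + ε)) * (c * ‖y‖) := by ring
      _ ≤ (ε / (1 + ε)) * supp K y := by gcongr
  have h6 := hK.nice_supp.nonneg y
  have h7 : ε / (1 + ε) ≤ ε := div_le_self hε.le (by linarith)
  constructor
  · nlinarith
  · have h8 : supp K y ≤ supp (Ks j) y + (ε / (1 + ε)) * supp K y := by linarith
    have h9 : supp K y = (1 + ε) * ((1 - ε / (1 + ε)) * supp K y) := by
      field_simp
      ring
    rw [h9]
    gcongr
    linarith

lemma conv_gauge {Ks : ℕ → Set (Fin n → ℝ)} {K : Set (Fin n → ℝ)} (hKs : ∀ j, Body (Ks j))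
    (hK : Body K) (h : Tendsto (fun j => Metric.hausdorffDist (Ks j) K) atTop (𝓝 0)) :
    Conv (fun j => gauge (Ks j)) (gauge K) :=
  (conv_supp hKs hK h).dual (fun j => (hKs j).pair) hK.pair

end Pool.Agent.helper88.Mink
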