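import Pool.Agent.helper88.Mink.Body

set_option autoImplicit false
open MeasureTheory Set Filter Topology Matrix
open scoped Pointwise ENNReal NNReal

namespace Pool.Agent.helper88.Mink

variable {n : ℕ}

/-- the map to the normal bundle -/
noncomputable def nb (p : (Fin n → ℝ) → ℝ) (v : Fin n → ℝ) : (Fin n → ℝ) × (Fin n → ℝ) :=
  ((p v)⁻¹ • v, grad p v)

/-- the lifted cone measure -/
noncomputable def M (p : (Fin n → ℝ) → ℝ) : Measure ((Fin n → ℝ) × (Fin n → ℝ)) :=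
  (volume.restrict {v | p v ≤ 1}).map (nb p)

/-- the meet of the two lifted cone measures -/
noncomputable def Th (p h : (Fin n → ℝ) → ℝ) : Measure ((Fin n → ℝ) × (Fin n → ℝ)) :=
  M p ⊓ (M h).map Prod.swap

lemma measurable_nb {p : (Fin n → ℝ) → ℝ} (hp : Nice p) : Measurable (nb p) :=
  ((hp.cont.measurable.inv).smul measurable_id).prodMk (measurable_grad p)

lemma M_apply {p : (Fin n → ℝ) → ℝ} (hp : Nice p) {A : Set ((Fin n → ℝ) × (Fin n → ℝ))}
    (hA : MeasurableSet A) : M p A = volume {v | p v ≤ 1 ∧ nb p v ∈ A} := by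
  rw [M, Measure.map_apply (measurable_nb hp) hA,
    Measure.restrict_apply (measurable_nb hp hA)]
  congr 1
  ext v
  simp [and_comm]

lemma vol_lt_top {p : (Fin n → ℝ) → ℝ} (hp : Nice p) (r : ℝ) :
    volume {v | p v ≤ r} < ∞ := (hp.isCompact r).measure_lt_top

lemma M_finite {p : (Fin n → ℝ) → ℝ} (hp : Nice p) : IsFiniteMeasure (M p) := by
  refine ⟨?_⟩
  rw [M_apply hp MeasurableSet.univ]
  refine lt_of_le_of_lt (measure_mono ?_) (vol_lt_top hp 1)
  intro v hv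
  exact hv.1

lemma Th_le_left (p h : (Fin n → ℝ) → ℝ) : Th p h ≤ M p := inf_le_left

lemma Th_le_right (p h : (Fin n → ℝ) → ℝ) : Th p h ≤ (M h).map Prod.swap := inf_le_right

lemma Th_finite {p h : (Fin n → ℝ) → ℝ} (hp : Nice p) : IsFiniteMeasure (Th p h) := by
  have := M_finite hp
  exact isFiniteMeasure_of_le (M p) (Th_le_left p h)

lemma ae_ne_zero (hn : 0 < n) : ∀ᵐ v ∂(volume : Measure (Fin n → ℝ)), v ≠ 0 := by
  have : Nonempty (Fin n) := ⟨⟨0, hn⟩⟩
  rw [ae_iff]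
  simp

/-- gradients and normalised points are in the dual unit balls -/
lemma nb_spec {p h : (Fin n → ℝ) → ℝ} (P : Pair p h) {v : Fin n → ℝ} (hv : v ≠ 0)
    (hd : DifferentiableAt ℝ p v) : p (nb p v).1 = 1 ∧ h (nb p v).2 ≤ 1 ∧
      v ⬝ᵥ (nb p v).2 = p v := by
  have h0 := P.np.pos v hv
  refine ⟨?_, (P.grad_spec hd).1, (P.grad_spec hd).2⟩
  simp only [nb]
  rw [P.np.hom _ (by positivity), inv_mul_cancel₀ h0.ne']

lemma restrict_eq_of {μ ν : Measure ((Fin n → ℝ) × (Fin n → ℝ))}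
    {S : Set ((Fin n → ℝ) × (Fin n → ℝ))} (hS : MeasurableSet S)
    (h : ∀ A, MeasurableSet A → A ⊆ S → μ A = ν A) : μ.restrict S = ν.restrict S := by
  ext A hA
  rw [Measure.restrict_apply hA, Measure.restrict_apply hA]
  exact h _ (hA.inter hS) inter_subset_right

/-- `M p` and `M q` agree over a cone on which `p = q`, if `p ≤ q` -/
lemma M_restrict_eq (hn : 0 < n) {p q h k : (Fin n → ℝ) → ℝ} (P : Pair p h) (Q : Pair q k)
    (hle : ∀ v, p v ≤ q v) {X : Set (Fin n → ℝ)} (hX : MeasurableSet X)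
    (hXc : ∀ v, ∀ t : ℝ, 0 < t → (t • v ∈ X ↔ v ∈ X)) (heq : ∀ v ∈ X, p v = q v) :
    (M p).restrict {z | z.1 ∈ X} = (M q).restrict {z | z.1 ∈ X} := by
  refine restrict_eq_of (measurable_fst hX) fun A hA hAS => ?_
  rw [M_apply P.np hA, M_apply Q.np hA]
  apply measure_congr
  filter_upwards [P.np.ae_diff, Q.np.ae_diff, ae_ne_zero hn] with v hdp hdq hv
  have hpv := P.np.pos v hv
  have hqv := Q.np.pos v hv
  rw [eq_iff_iff]
  have key : v ∈ X → nb p v = nb q v ∧ p v = q v := by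
    intro hvX
    have h1 := heq v hvX
    refine ⟨?_, h1⟩
    simp only [nb]
    rw [h1, grad_eq_of_touch hdq hdp hle h1]
  constructor
  · rintro ⟨h1, h2⟩
    have h3 : v ∈ X := by
      have := hAS h2
      simp only [nb, mem_ofPred_eq] at this
      exact (hXc v _ (by positivity)).1 this
    obtain ⟨h4, h5⟩ := key h3
    exact ⟨by rw [← h5]; exact h1, by rw [← h4]; exact h2⟩
  · rintro ⟨h1, h2⟩
    have h3 : v ∈ X := by
      have := hAS h2
      simp only [nb, mem_ofPred_eq] at this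
      exact (hXc v _ (by positivity)).1 this
    obtain ⟨h4, h5⟩ := key h3
    exact ⟨by rw [h5]; exact h1, by rw [h4]; exact h2⟩

lemma swap_restrict_eq {μ ν : Measure ((Fin n → ℝ) × (Fin n → ℝ))} {X : Set (Fin n → ℝ)}
    (hX : MeasurableSet X)
    (h : μ.restrict {z | z.1 ∈ X} = ν.restrict {z | z.1 ∈ X}) :
    (μ.map Prod.swap).restrict {z | z.2 ∈ X} = (ν.map Prod.swap).restrict {z | z.2 ∈ X} := by
  have hS : MeasurableSet {z : (Fin n → ℝ) × (Fin n → ℝ) | z.2 ∈ X} := measurable_snd hX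
  rw [Measure.restrict_map measurable_swap hS, Measure.restrict_map measurable_swap hS]
  have e : (Prod.swap ⁻¹' {z : (Fin n → ℝ) × (Fin n → ℝ) | z.2 ∈ X}) = {z | z.1 ∈ X} := rfl
  rw [e, h]

lemma restrict_mono_eq {μ ν : Measure ((Fin n → ℝ) × (Fin n → ℝ))}
    {S T : Set ((Fin n → ℝ) × (Fin n → ℝ))} (hS : MeasurableSet S)
    (hST : S ⊆ T) (h : μ.restrict T = ν.restrict T) : μ.restrict S = ν.restrict S := by
  have h1 : (μ.restrict T).restrict S = (ν.restrict T).restrict S := by rw [h]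
  rwa [Measure.restrict_restrict hS, Measure.restrict_restrict hS,
    inter_eq_left.2 hST] at h1

lemma inf_congr {μ ν μ' ν' : Measure ((Fin n → ℝ) × (Fin n → ℝ))}
    {S : Set ((Fin n → ℝ) × (Fin n → ℝ))} (hS : MeasurableSet S)
    (h1 : μ.restrict S = μ'.restrict S) (h2 : ν.restrict S = ν'.restrict S)
    {A : Set ((Fin n → ℝ) × (Fin n → ℝ))} (hA : MeasurableSet A) :
    (μ ⊓ ν) (A ∩ S) = (μ' ⊓ ν') (A ∩ S) := by
  rw [Measure.inf_apply (hA.inter hS), Measure.inf_apply (hA.inter hS)]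
  congr 1
  ext m
  have e1 : ∀ t, μ (t ∩ (A ∩ S)) = μ' (t ∩ (A ∩ S)) := by
    intro t
    have : μ.restrict S (t ∩ A) = μ'.restrict S (t ∩ A) := by rw [h1]
    rwa [Measure.restrict_apply' hS, Measure.restrict_apply' hS, inter_assoc] at this
  have e2 : ∀ t, ν (t ∩ (A ∩ S)) = ν' (t ∩ (A ∩ S)) := by
    intro t
    have : ν.restrict S (t ∩ A) = ν'.restrict S (t ∩ A) := by rw [h2]
    rwa [Measure.restrict_apply' hS, Measure.restrict_apply' hS, inter_assoc] at this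
  simp only [mem_ofPred_eq, e1, e2]


section add
variable {p₁ p₂ h₁ h₂ : (Fin n → ℝ) → ℝ}

/-- the null region -/
def NS (p₁ p₂ h₁ h₂ : (Fin n → ℝ) → ℝ) : Set ((Fin n → ℝ) × (Fin n → ℝ)) :=
  {z | p₁ z.1 < p₂ z.1 ∧ h₁ z.2 < h₂ z.2} ∪ {z | p₂ z.1 < p₁ z.1 ∧ h₂ z.2 < h₁ z.2}

lemma NS_comm : NS p₁ p₂ h₁ h₂ = NS p₂ p₁ h₂ h₁ := union_comm _ _

lemma measurableSet_NS (P₁ : Pair p₁ h₁) (P₂ : Pair p₂ h₂) :
    MeasurableSet (NS p₁ p₂ h₁ h₂) := by
  refine MeasurableSet.union (MeasurableSet.inter ?_ ?_) (MeasurableSet.inter ?_ ?_)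
  · exact measurableSet_lt (P₁.np.cont.measurable.comp measurable_fst)
      (P₂.np.cont.measurable.comp measurable_fst)
  · exact measurableSet_lt (P₁.nh.cont.measurable.comp measurable_snd)
      (P₂.nh.cont.measurable.comp measurable_snd)
  · exact measurableSet_lt (P₂.np.cont.measurable.comp measurable_fst)
      (P₁.np.cont.measurable.comp measurable_fst)
  · exact measurableSet_lt (P₂.nh.cont.measurable.comp measurable_snd)
      (P₁.nh.cont.measurable.comp measurable_snd)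

/-- the null region, for the first measure -/
lemma null_left (hn : 0 < n) (P₁ : Pair p₁ h₁) (P₂ : Pair p₂ h₂)
    (Pu : Pair (fun x => min (p₁ x) (p₂ x)) (fun y => max (h₁ y) (h₂ y))) :
    M p₁ (NS p₁ p₂ h₁ h₂) = 0 := by
  rw [M_apply P₁.np (measurableSet_NS P₁ P₂), measure_eq_zero_iff_ae_notMem]
  filter_upwards [P₁.np.ae_diff, Pu.np.ae_diff, ae_ne_zero hn] with v hd hdu hv
  rintro ⟨_, h⟩
  have h0 := P₁.np.pos v hv
  have hs1 := P₁.grad_spec hd
  rcases h with ⟨ha, hb⟩ | ⟨ha, hb⟩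
  · simp only [nb] at ha hb
    rw [P₁.np.hom _ (by positivity), P₂.np.hom _ (by positivity)] at ha
    have ha' : p₁ v < p₂ v := lt_of_mul_lt_mul_left ha (by positivity)
    have hg : grad p₁ v = grad (fun x => min (p₁ x) (p₂ x)) v :=
      grad_eq_of_touch hd hdu (fun z => min_le_left _ _) (min_eq_left ha'.le)
    have hs2 := (Pu.grad_spec hdu).1
    rw [← hg] at hs2
    have h2 : h₂ (grad p₁ v) ≤ 1 := (le_max_right _ _).trans hs2
    have h3 := P₁.le v (grad p₁ v)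
    rw [hs1.2] at h3
    nlinarith
  · simp only [nb] at ha hb
    rw [P₁.np.hom _ (by positivity), P₂.np.hom _ (by positivity)] at ha
    have ha' : p₂ v < p₁ v := lt_of_mul_lt_mul_left ha (by positivity)
    have h3 := P₂.le v (grad p₁ v)
    rw [hs1.2] at h3
    have h4 := P₂.np.nonneg v
    have h5 : h₂ (grad p₁ v) < 1 := lt_of_lt_of_le hb hs1.1
    nlinarith

lemma null_of_restrict {μ μ₁ μ₂ : Measure ((Fin n → ℝ) × (Fin n → ℝ))}
    {X Y N : Set ((Fin n → ℝ) × (Fin n → ℝ))} (hX : MeasurableSet X) (hY : MeasurableSet Y)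
    (hXY : ∀ z, z ∈ X ∨ z ∈ Y) (h1 : μ.restrict X = μ₁.restrict X)
    (h2 : μ.restrict Y = μ₂.restrict Y) (n1 : μ₁ N = 0) (n2 : μ₂ N = 0) : μ N = 0 := by
  have e1 : μ (N ∩ X) = 0 := by
    rw [← Measure.restrict_apply' hX, h1, Measure.restrict_apply' hX]
    exact measure_mono_null inter_subset_left n1
  have e2 : μ (N ∩ Y) = 0 := by
    rw [← Measure.restrict_apply' hY, h2, Measure.restrict_apply' hY]
    exact measure_mono_null inter_subset_left n2
  refine measure_mono_null ?_ (measure_union_null e1 e2)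
  intro z hz
  rcases hXY z with h | h
  · exact Or.inl ⟨hz, h⟩
  · exact Or.inr ⟨hz, h⟩

/-- The lifted measures are a valuation. -/
lemma Th_add (hn : 0 < n) (P₁ : Pair p₁ h₁) (P₂ : Pair p₂ h₂)
    (Pu : Pair (fun x => min (p₁ x) (p₂ x)) (fun y => max (h₁ y) (h₂ y)))
    (Pi : Pair (fun x => max (p₁ x) (p₂ x)) (fun y => min (h₁ y) (h₂ y))) :
    Th (fun x => min (p₁ x) (p₂ x)) (fun y => max (h₁ y) (h₂ y)) +
      Th (fun x => max (p₁ x) (p₂ x)) (fun y => min (h₁ y) (h₂ y)) = Th p₁ h₁ + Th p₂ h₂ := by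
  set pu : (Fin n → ℝ) → ℝ := fun x => min (p₁ x) (p₂ x) with hpu
  set hu : (Fin n → ℝ) → ℝ := fun y => max (h₁ y) (h₂ y) with hhu
  set pi : (Fin n → ℝ) → ℝ := fun x => max (p₁ x) (p₂ x) with hpi
  set hi : (Fin n → ℝ) → ℝ := fun y => min (h₁ y) (h₂ y) with hhi
  -- cones
  have mle : ∀ {f g : (Fin n → ℝ) → ℝ}, Nice f → Nice g → MeasurableSet {x | f x ≤ g x} :=
    fun hf hg => measurableSet_le hf.cont.measurable hg.cont.measurable
  have cone : ∀ {f g : (Fin n → ℝ) → ℝ}, Nice f → Nice g → ∀ v, ∀ t : ℝ, 0 < t →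
      (t • v ∈ {x | f x ≤ g x} ↔ v ∈ {x | f x ≤ g x}) := by
    intro f g hf hg v t ht
    simp only [mem_ofPred_eq]
    rw [hf.hom t ht.le, hg.hom t ht.le]
    exact mul_le_mul_iff_right₀ ht
  -- first family
  have a1 := M_restrict_eq hn Pu P₁ (fun v => min_le_left _ _) (mle P₁.np P₂.np)
    (cone P₁.np P₂.np) (fun v hv => min_eq_left hv)
  have a2 := M_restrict_eq hn Pu P₂ (fun v => min_le_right _ _) (mle P₂.np P₁.np)
    (cone P₂.np P₁.np) (fun v hv => min_eq_right hv)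
  have a3 := (M_restrict_eq hn P₂ Pi (fun v => le_max_right _ _) (mle P₁.np P₂.np)
    (cone P₁.np P₂.np) (fun v hv => (max_eq_right hv).symm)).symm
  have a4 := (M_restrict_eq hn P₁ Pi (fun v => le_max_left _ _) (mle P₂.np P₁.np)
    (cone P₂.np P₁.np) (fun v hv => (max_eq_left hv).symm)).symm
  -- second family
  have b1 := swap_restrict_eq (mle P₁.nh P₂.nh) (M_restrict_eq hn Pi.symm P₁.symm
    (fun v => min_le_left _ _) (mle P₁.nh P₂.nh) (cone P₁.nh P₂.nh) (fun v hv => min_eq_left hv))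
  have b2 := swap_restrict_eq (mle P₂.nh P₁.nh) (M_restrict_eq hn Pi.symm P₂.symm
    (fun v => min_le_right _ _) (mle P₂.nh P₁.nh) (cone P₂.nh P₁.nh)
    (fun v hv => min_eq_right hv))
  have b3 := swap_restrict_eq (mle P₁.nh P₂.nh) ((M_restrict_eq hn P₂.symm Pu.symm
    (fun v => le_max_right _ _) (mle P₁.nh P₂.nh) (cone P₁.nh P₂.nh)
    (fun v hv => (max_eq_right hv).symm)).symm)
  have b4 := swap_restrict_eq (mle P₂.nh P₁.nh) ((M_restrict_eq hn P₁.symm Pu.symm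
    (fun v => le_max_left _ _) (mle P₂.nh P₁.nh) (cone P₂.nh P₁.nh)
    (fun v hv => (max_eq_left hv).symm)).symm)
  -- null sets
  have n1 : M p₁ (NS p₁ p₂ h₁ h₂) = 0 := null_left hn P₁ P₂ Pu
  have n2 : M p₂ (NS p₁ p₂ h₁ h₂) = 0 := by
    rw [NS_comm]
    refine null_left hn P₂ P₁ ?_
    simp_rw [min_comm (p₂ _), max_comm (h₂ _)]
    exact Pu
  have mS : ∀ {f g : (Fin n → ℝ) → ℝ}, Nice f → Nice g →
      MeasurableSet {z : (Fin n → ℝ) × (Fin n → ℝ) | z.1 ∈ {x | f x ≤ g x}} :=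
    fun hf hg => measurable_fst (mle hf hg)
  have mT : ∀ {f g : (Fin n → ℝ) → ℝ}, Nice f → Nice g →
      MeasurableSet {z : (Fin n → ℝ) × (Fin n → ℝ) | z.2 ∈ {x | f x ≤ g x}} :=
    fun hf hg => measurable_snd (mle hf hg)
  have nu : M pu (NS p₁ p₂ h₁ h₂) = 0 := null_of_restrict (mS P₁.np P₂.np) (mS P₂.np P₁.np)
    (fun z => le_total (p₁ z.1) (p₂ z.1)) a1 a2 n1 n2
  have ni : M pi (NS p₁ p₂ h₁ h₂) = 0 := null_of_restrict (mS P₁.np P₂.np) (mS P₂.np P₁.np)
    (fun z => le_total (p₁ z.1) (p₂ z.1)) a3 a4 n2 n1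
  have t1 : Th p₁ h₁ (NS p₁ p₂ h₁ h₂) = 0 := le_antisymm ((Th_le_left _ _ _).trans n1.le) bot_le
  have t2 : Th p₂ h₂ (NS p₁ p₂ h₁ h₂) = 0 := le_antisymm ((Th_le_left _ _ _).trans n2.le) bot_le
  have tu : Th pu hu (NS p₁ p₂ h₁ h₂) = 0 := le_antisymm ((Th_le_left _ _ _).trans nu.le) bot_le
  have ti : Th pi hi (NS p₁ p₂ h₁ h₂) = 0 := le_antisymm ((Th_le_left _ _ _).trans ni.le) bot_le
  -- the two main regions
  set A : Set ((Fin n → ℝ) × (Fin n → ℝ)) := {z | z.1 ∈ {x | p₁ x ≤ p₂ x}} ∩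
    {z | z.2 ∈ {x | h₂ x ≤ h₁ x}} with hA
  set B : Set ((Fin n → ℝ) × (Fin n → ℝ)) := ({z | z.1 ∈ {x | p₂ x ≤ p₁ x}} ∩
    {z | z.2 ∈ {x | h₁ x ≤ h₂ x}}) with hB
  have hAm : MeasurableSet A := (mS P₁.np P₂.np).inter (mT P₂.nh P₁.nh)
  have hBm : MeasurableSet B := (mS P₂.np P₁.np).inter (mT P₁.nh P₂.nh)
  have c1 : (M pu).restrict A = (M p₁).restrict A := restrict_mono_eq hAm inter_subset_left a1
  have c2 : (M pi).restrict A = (M p₂).restrict A := restrict_mono_eq hAm inter_subset_left a3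
  have c3 : ((M hu).map Prod.swap).restrict A = ((M h₁).map Prod.swap).restrict A :=
    restrict_mono_eq hAm inter_subset_right b4
  have c4 : ((M hi).map Prod.swap).restrict A = ((M h₂).map Prod.swap).restrict A :=
    restrict_mono_eq hAm inter_subset_right b2
  have d1 : (M pu).restrict B = (M p₂).restrict B := restrict_mono_eq hBm inter_subset_left a2
  have d2 : (M pi).restrict B = (M p₁).restrict B := restrict_mono_eq hBm inter_subset_left a4
  have d3 : ((M hu).map Prod.swap).restrict B = ((M h₂).map Prod.swap).restrict B :=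
    restrict_mono_eq hBm inter_subset_right b3
  have d4 : ((M hi).map Prod.swap).restrict B = ((M h₁).map Prod.swap).restrict B :=
    restrict_mono_eq hBm inter_subset_right b1
  -- splitting
  have split : ∀ (μ : Measure ((Fin n → ℝ) × (Fin n → ℝ))), μ (NS p₁ p₂ h₁ h₂) = 0 →
      ∀ S, MeasurableSet S → μ S = μ (S ∩ A) + μ ((S \ A) ∩ B) := by
    intro μ hμ S hS
    rw [← measure_inter_add_sdiff S hAm, ← measure_inter_add_sdiff (S \ A) hBm]
    congr 1
    have : μ ((S \ A) \ B) = 0 := by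
      refine measure_mono_null ?_ hμ
      rintro z ⟨⟨_, hzA⟩, hzB⟩
      simp only [hA, hB, mem_inter_iff, mem_ofPred_eq, not_and_or, not_le] at hzA hzB
      simp only [NS, mem_union, mem_ofPred_eq]
      rcases hzA with h | h <;> rcases hzB with h' | h'
      · exact absurd h (not_lt.2 h'.le)
      · exact Or.inr ⟨h, h'⟩
      · exact Or.inl ⟨h', h⟩
      · exact absurd h (not_lt.2 h'.le)
    rw [this, add_zero]
  ext S hS
  rw [Measure.add_apply, Measure.add_apply, split _ tu S hS, split _ ti S hS, split _ t1 S hS,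
    split _ t2 S hS]
  have e1 : Th pu hu (S ∩ A) = Th p₁ h₁ (S ∩ A) := inf_congr hAm c1 c3 hS
  have e2 : Th pi hi (S ∩ A) = Th p₂ h₂ (S ∩ A) := inf_congr hAm c2 c4 hS
  have e3 : Th pu hu ((S \ A) ∩ B) = Th p₂ h₂ ((S \ A) ∩ B) :=
    inf_congr hBm d1 d3 (hS.diff hAm)
  have e4 : Th pi hi ((S \ A) ∩ B) = Th p₁ h₁ ((S \ A) ∩ B) :=
    inf_congr hBm d2 d4 (hS.diff hAm)
  rw [e1, e2, e3, e4]
  ring

end add

end Pool.Agent.helper88.Mink
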