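import Mathlib

set_option autoImplicit false
open MeasureTheory Set Filter Topology Matrix
open scoped Pointwise ENNReal NNReal

namespace Pool.Agent.helper88.Mink

/-- positively homogeneous, subadditive and positive away from the origin -/
structure Nice {n : ℕ} (p : (Fin n → ℝ) → ℝ) : Prop where
  hom : ∀ t : ℝ, 0 ≤ t → ∀ v, p (t • v) = t * p v
  sub : ∀ v w, p (v + w) ≤ p v + p w
  pos : ∀ v, v ≠ 0 → 0 < p v

namespace Nice
variable {n : ℕ} {p : (Fin n → ℝ) → ℝ}

lemma zero (hp : Nice p) : p 0 = 0 := by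
  have := hp.hom 0 le_rfl 0
  simpa using this

lemma nonneg (hp : Nice p) (v : Fin n → ℝ) : 0 ≤ p v := by
  rcases eq_or_ne v 0 with rfl | h
  · exact hp.zero.ge
  · exact (hp.pos v h).le

lemma sum_le (hp : Nice p) {ι : Type*} (s : Finset ι) (f : ι → (Fin n → ℝ)) :
    p (∑ i ∈ s, f i) ≤ ∑ i ∈ s, p (f i) := by
  classical
  induction s using Finset.induction_on with
  | empty => simp [hp.zero]
  | insert a s ha ih =>
    rw [Finset.sum_insert ha, Finset.sum_insert ha]
    exact (hp.sub _ _).trans (by linarith)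

/-- the Lipschitz constant -/
noncomputable def C (p : (Fin n → ℝ) → ℝ) : ℝ :=
  ∑ i : Fin n, (p (Pi.single i 1) + p (-Pi.single i 1))

lemma C_nonneg (hp : Nice p) : 0 ≤ C p :=
  Finset.sum_nonneg fun _ _ => add_nonneg (hp.nonneg _) (hp.nonneg _)

lemma le_C (hp : Nice p) (v : Fin n → ℝ) : p v ≤ C p * ‖v‖ := by
  have hv : v = ∑ i : Fin n, v i • (Pi.single i 1 : Fin n → ℝ) := by
    ext j
    simp [Finset.sum_apply, Pi.single_apply]
  calc p v = p (∑ i : Fin n, v i • (Pi.single i 1 : Fin n → ℝ)) := by rw [← hv]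
    _ ≤ ∑ i : Fin n, p (v i • (Pi.single i 1 : Fin n → ℝ)) := hp.sum_le _ _
    _ ≤ ∑ i : Fin n, (p (Pi.single i 1) + p (-Pi.single i 1)) * ‖v‖ := by
        refine Finset.sum_le_sum fun i _ => ?_
        have h1 : |v i| ≤ ‖v‖ := norm_le_pi_norm v i
        have h2 := hp.nonneg (Pi.single i 1)
        have h3 := hp.nonneg (-Pi.single i 1)
        rcases le_total 0 (v i) with h | h
        · rw [hp.hom _ h]
          rw [abs_of_nonneg h] at h1
          nlinarith [norm_nonneg v]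
        · have : v i • (Pi.single i 1 : Fin n → ℝ) = (-v i) • (-Pi.single i 1) := by simp
          rw [this, hp.hom _ (by linarith)]
          rw [abs_of_nonpos h] at h1
          nlinarith [norm_nonneg v]
    _ = C p * ‖v‖ := by rw [C, Finset.sum_mul]

lemma sub_le (hp : Nice p) (v w : Fin n → ℝ) : p v - p w ≤ C p * ‖v - w‖ := by
  have h1 := hp.sub (v - w) w
  rw [sub_add_cancel] at h1
  linarith [hp.le_C (v - w)]

lemma lip (hp : Nice p) : LipschitzWith (Real.toNNReal (C p)) p := by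
  refine LipschitzWith.of_dist_le_mul fun v w => ?_
  rw [Real.coe_toNNReal _ hp.C_nonneg, Real.dist_eq, dist_eq_norm, abs_le]
  constructor
  · have := hp.sub_le w v
    rw [norm_sub_rev] at this
    linarith
  · exact hp.sub_le v w

lemma cont (hp : Nice p) : Continuous p := hp.lip.continuous

lemma ae_diff (hp : Nice p) : ∀ᵐ v ∂(volume : Measure (Fin n → ℝ)), DifferentiableAt ℝ p v :=
  hp.lip.ae_differentiableAt

/-- lower bound -/
lemma exists_lower (hp : Nice p) : ∃ c > 0, ∀ v, c * ‖v‖ ≤ p v := by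
  rcases (Metric.sphere (0 : Fin n → ℝ) 1).eq_empty_or_nonempty with he | hne
  · refine ⟨1, one_pos, fun v => ?_⟩
    rcases eq_or_ne v 0 with rfl | h
    · simp [hp.zero]
    · exfalso
      have : (‖v‖⁻¹ • v) ∈ Metric.sphere (0 : Fin n → ℝ) 1 := by
        simp [norm_smul, h]
      rw [he] at this
      exact this
  · obtain ⟨u, hu, hmin⟩ := (isCompact_sphere (0 : Fin n → ℝ) 1).exists_isMinOn hne
      hp.cont.continuousOn
    have hu0 : u ≠ 0 := by
      rintro rfl
      simp at hu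
    refine ⟨p u, hp.pos u hu0, fun v => ?_⟩
    rcases eq_or_ne v 0 with rfl | h
    · simp [hp.zero]
    · have hs : (‖v‖⁻¹ • v) ∈ Metric.sphere (0 : Fin n → ℝ) 1 := by
        simp [norm_smul, h]
      have h1 := hmin hs
      simp only [mem_ofPred_eq] at h1
      rw [hp.hom _ (by positivity)] at h1
      have hv : 0 < ‖v‖ := norm_pos_iff.2 h
      rw [inv_mul_eq_div, le_div_iff₀ hv] at h1
      exact h1

lemma isBounded (hp : Nice p) (r : ℝ) : Bornology.IsBounded {v | p v ≤ r} := by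
  obtain ⟨c, hc, h⟩ := hp.exists_lower
  refine (Metric.isBounded_closedBall (x := (0 : Fin n → ℝ)) (r := r / c)).subset fun v hv => ?_
  rw [mem_closedBall_zero_iff, le_div_iff₀ hc]
  have := h v
  have hv' : p v ≤ r := hv
  linarith

lemma isClosed (hp : Nice p) (r : ℝ) : IsClosed {v | p v ≤ r} :=
  isClosed_le hp.cont continuous_const

lemma isCompact (hp : Nice p) (r : ℝ) : IsCompact {v | p v ≤ r} :=
  Metric.isCompact_of_isClosed_isBounded (hp.isClosed r) (hp.isBounded r)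

end Nice

/-- dual pair: `p` is the gauge of a body, `h` its support function -/
structure Pair {n : ℕ} (p h : (Fin n → ℝ) → ℝ) : Prop where
  np : Nice p
  nh : Nice h
  le : ∀ x y, x ⬝ᵥ y ≤ p x * h y
  ap : ∀ x, ∃ y, h y ≤ 1 ∧ x ⬝ᵥ y = p x
  ah : ∀ y, ∃ x, p x ≤ 1 ∧ x ⬝ᵥ y = h y

lemma Pair.symm {n : ℕ} {p h : (Fin n → ℝ) → ℝ} (P : Pair p h) : Pair h p where
  np := P.nh
  nh := P.np
  le := fun x y => by rw [dotProduct_comm, mul_comm]; exact P.le y x
  ap := fun x => by
    obtain ⟨y, h1, h2⟩ := P.ah x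
    exact ⟨y, h1, by rw [dotProduct_comm]; exact h2⟩
  ah := fun x => by
    obtain ⟨y, h1, h2⟩ := P.ap x
    exact ⟨y, h1, by rw [dotProduct_comm]; exact h2⟩

/-- the gradient -/
noncomputable def grad {n : ℕ} (p : (Fin n → ℝ) → ℝ) (v : Fin n → ℝ) : Fin n → ℝ :=
  fun i => fderiv ℝ p v (Pi.single i 1)

lemma dot_grad {n : ℕ} (p : (Fin n → ℝ) → ℝ) (v z : Fin n → ℝ) :
    z ⬝ᵥ grad p v = fderiv ℝ p v z := by
  have hz : z = ∑ i : Fin n, z i • (Pi.single i 1 : Fin n → ℝ) := by
    ext j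
    simp [Finset.sum_apply, Pi.single_apply]
  conv_rhs => rw [hz]
  rw [map_sum]
  simp [dotProduct, grad]

lemma measurable_grad {n : ℕ} (p : (Fin n → ℝ) → ℝ) : Measurable (grad p) :=
  measurable_pi_lambda _ fun _ => measurable_fderiv_apply_const ℝ p _

/-- two functions touching at `v` have the same gradient -/
lemma grad_eq_of_touch {n : ℕ} {p q : (Fin n → ℝ) → ℝ} {v : Fin n → ℝ}
    (hp : DifferentiableAt ℝ p v) (hq : DifferentiableAt ℝ q v) (hle : ∀ z, q z ≤ p z)
    (heq : q v = p v) : grad p v = grad q v := by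
  have hmin : IsLocalMin (fun z => p z - q z) v := by
    refine Filter.Eventually.of_forall fun z => ?_
    simp only [heq, sub_self]
    linarith [hle z]
  have h0 := hmin.fderiv_eq_zero
  have h1 : fderiv ℝ (fun z => p z - q z) v = fderiv ℝ p v - fderiv ℝ q v :=
    fderiv_fun_sub hp hq
  rw [h0] at h1
  ext i
  have h2 : (0 : (Fin n → ℝ) →L[ℝ] ℝ) (Pi.single i 1) =
      (fderiv ℝ p v - fderiv ℝ q v) (Pi.single i 1) := by rw [h1]
  simp only [_root_.zero_apply, _root_.sub_apply] at h2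
  simp only [grad]
  linarith

lemma grad_dot {n : ℕ} (y v : Fin n → ℝ) : grad (fun z => z ⬝ᵥ y) v = y := by
  have h : (fun z : Fin n → ℝ => z ⬝ᵥ y) = (LinearMap.toContinuousLinearMap
      ((dotProductBilin ℝ ℝ (m := Fin n) (A := ℝ)).flip y)) := by
    ext z; simp
  ext i
  simp only [grad]
  rw [h, ContinuousLinearMap.fderiv]
  simp


namespace Pair
variable {n : ℕ} {p h : (Fin n → ℝ) → ℝ}

lemma grad_eq (P : Pair p h) {v y : Fin n → ℝ} (hd : DifferentiableAt ℝ p v)
    (hy : h y ≤ 1) (hvy : v ⬝ᵥ y = p v) : grad p v = y := by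
  have hle : ∀ z, z ⬝ᵥ y ≤ p z := fun z =>
    (P.le z y).trans (by nlinarith [P.np.nonneg z])
  have hq : DifferentiableAt ℝ (fun z : Fin n → ℝ => z ⬝ᵥ y) v := by
    simp only [dotProduct]
    fun_prop
  rw [grad_eq_of_touch hd hq hle hvy, grad_dot]

lemma grad_spec (P : Pair p h) {v : Fin n → ℝ} (hd : DifferentiableAt ℝ p v) :
    h (grad p v) ≤ 1 ∧ v ⬝ᵥ grad p v = p v := by
  obtain ⟨y, h1, h2⟩ := P.ap v
  rw [P.grad_eq hd h1 h2]
  exact ⟨h1, h2⟩

lemma le_of_le {p' h' : (Fin n → ℝ) → ℝ} (P : Pair p h) (P' : Pair p' h') {c : ℝ} (hc : 0 ≤ c)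
    (hh : ∀ y, h' y ≤ c * h y) (x : Fin n → ℝ) : p x ≤ c * p' x := by
  obtain ⟨y, h1, h2⟩ := P.ap x
  rw [← h2]
  have h3 := P'.le x y
  have h4 := P'.np.nonneg x
  have h5 := hh y
  nlinarith [mul_le_mul_of_nonneg_left h5 h4, mul_le_mul_of_nonneg_left h1 (mul_nonneg hc h4)]

end Pair

lemma exists_supporting {E : Type*} [AddCommGroup E] [Module ℝ E] (N : E → ℝ)
    (N_hom : ∀ c : ℝ, 0 < c → ∀ x, N (c • x) = c * N x) (N_add : ∀ x y, N (x + y) ≤ N x + N y)
    (x : E) : ∃ g : E →ₗ[ℝ] ℝ, g x = N x ∧ ∀ z, g z ≤ N z := by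
  have N0 : N 0 = 0 := by
    have := N_hom 2 (by norm_num) 0
    rw [smul_zero] at this
    linarith
  have H : ∀ c : ℝ, c • x = 0 → c • (N x) = 0 := by
    intro c hc
    rcases eq_or_ne c 0 with rfl | h
    · simp
    · have : x = 0 := by simpa [h] using hc
      simp [this, N0]
  obtain ⟨g, h1, hg⟩ := exists_extension_of_le_sublinear
      (LinearPMap.mkSpanSingleton' (σ := RingHom.id ℝ) x (N x) H) N N_hom N_add (by
      rintro ⟨z, hz⟩
      obtain ⟨t, rfl⟩ := Submodule.mem_span_singleton.1 hz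
      rw [LinearPMap.mkSpanSingleton'_apply]
      simp only [smul_eq_mul, RingHom.id_apply]
      rcases lt_trichotomy t 0 with ht | rfl | ht
      · have h1 := N_hom (-t) (by linarith) x
        have h2 := N_add (t • x) ((-t) • x)
        rw [← add_smul, add_neg_cancel, zero_smul, N0, h1] at h2
        linarith
      · simp [N0]
      · rw [N_hom t ht])
  refine ⟨g, ?_, hg⟩
  have h2 := h1 ⟨x, Submodule.mem_span_singleton_self x⟩
  exact h2.trans (LinearPMap.mkSpanSingleton'_apply_self (σ := RingHom.id ℝ) x (N x) H _)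

end Pool.Agent.helper88.Mink
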