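import Pool.Agent.helper88.Mink.Pair

set_option autoImplicit false
open MeasureTheory Set Filter Topology
open scoped Pointwise ENNReal NNReal

namespace Pool.Agent.helper88.Mink

variable {E : Type*} [NormedAddCommGroup E] [NormedSpace ℝ E]

/-- sublinear functions on the dual -/
structure Sub (H : (E →ₗ[ℝ] ℝ) → ℝ) : Prop where
  hom : ∀ c : ℝ, 0 < c → ∀ ξ, H (c • ξ) = c * H ξ
  sub : ∀ ξ η, H (ξ + η) ≤ H ξ + H η

/-- the convex body with given support function -/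
def CC (H : (E →ₗ[ℝ] ℝ) → ℝ) : Set E := {w | ∀ ξ, ξ w ≤ H ξ}

lemma Sub.add {H₁ H₂ : (E →ₗ[ℝ] ℝ) → ℝ} (h1 : Sub H₁) (h2 : Sub H₂) :
    Sub (fun ξ => H₁ ξ + H₂ ξ) where
  hom := fun c hc ξ => by rw [h1.hom c hc, h2.hom c hc, mul_add]
  sub := fun ξ η => by linarith [h1.sub ξ η, h2.sub ξ η]

lemma CC_convex (H : (E →ₗ[ℝ] ℝ) → ℝ) : Convex ℝ (CC H) := by
  intro x hx y hy a b ha hb hab ξ
  rw [map_add, map_smul, map_smul, smul_eq_mul, smul_eq_mul]
  have h1 := hx ξ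
  have h2 := hy ξ
  have : b = 1 - a := by linarith
  subst this
  nlinarith

variable [FiniteDimensional ℝ E]

lemma CC_isClosed (H : (E →ₗ[ℝ] ℝ) → ℝ) : IsClosed (CC H) := by
  have : CC H = ⋂ ξ : E →ₗ[ℝ] ℝ, {w | ξ w ≤ H ξ} := by
    ext w
    simp [CC]
  rw [this]
  exact isClosed_iInter fun ξ =>
    isClosed_le ξ.continuous_of_finiteDimensional continuous_const

omit [FiniteDimensional ℝ E] in
lemma CC_mono {H₁ H₂ : (E →ₗ[ℝ] ℝ) → ℝ} (h : ∀ ξ, H₁ ξ ≤ H₂ ξ) : CC H₁ ⊆ CC H₂ :=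
  fun _ hw ξ => (hw ξ).trans (h ξ)

lemma CC_isBounded (H : (E →ₗ[ℝ] ℝ) → ℝ) : Bornology.IsBounded (CC H) := by
  set b := Module.finBasis ℝ E
  rw [isBounded_iff_forall_norm_le]
  refine ⟨∑ i, max (H (b.coord i)) (H (-b.coord i)) * ‖b i‖, fun w hw => ?_⟩
  calc ‖w‖ = ‖∑ i, b.coord i w • b i‖ := by
        conv_lhs => rw [← b.sum_repr w]
        rfl
    _ ≤ ∑ i, ‖b.coord i w • b i‖ := norm_sum_le _ _
    _ ≤ ∑ i, max (H (b.coord i)) (H (-b.coord i)) * ‖b i‖ := by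
        refine Finset.sum_le_sum fun i _ => ?_
        rw [norm_smul, Real.norm_eq_abs]
        refine mul_le_mul_of_nonneg_right ?_ (norm_nonneg _)
        have h1 := hw (b.coord i)
        have h2 := hw (-b.coord i)
        rw [LinearMap.neg_apply] at h2
        exact abs_le'.2 ⟨h1.trans (le_max_left _ _), h2.trans (le_max_right _ _)⟩

lemma CC_compact (H : (E →ₗ[ℝ] ℝ) → ℝ) : IsCompact (CC H) :=
  Metric.isCompact_of_isClosed_isBounded (CC_isClosed H) (CC_isBounded H)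

lemma CC_attain {H : (E →ₗ[ℝ] ℝ) → ℝ} (hH : Sub H) (ξ : E →ₗ[ℝ] ℝ) :
    ∃ w ∈ CC H, ξ w = H ξ := by
  obtain ⟨g, h1, h2⟩ := exists_supporting H hH.hom hH.sub ξ
  refine ⟨(Module.evalEquiv ℝ E).symm g, fun η => ?_, ?_⟩
  · rw [Module.apply_evalEquiv_symm_apply]
    exact h2 η
  · rw [Module.apply_evalEquiv_symm_apply]
    exact h1

lemma CC_nonempty {H : (E →ₗ[ℝ] ℝ) → ℝ} (hH : Sub H) : (CC H).Nonempty := by
  obtain ⟨w, hw, _⟩ := CC_attain hH 0
  exact ⟨w, hw⟩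

/-- Minkowski additivity -/
lemma CC_add {H₁ H₂ : (E →ₗ[ℝ] ℝ) → ℝ} (h1 : Sub H₁) (h2 : Sub H₂) :
    CC (fun ξ => H₁ ξ + H₂ ξ) = CC H₁ + CC H₂ := by
  apply Subset.antisymm
  · intro w hw
    by_contra hnot
    have hc : Convex ℝ (CC H₁ + CC H₂) := (CC_convex H₁).add (CC_convex H₂)
    have hcl : IsClosed (CC H₁ + CC H₂) := ((CC_compact H₁).add (CC_compact H₂)).isClosed
    obtain ⟨f, u, hf, hu⟩ := geometric_hahn_banach_closed_point hc hcl hnot
    obtain ⟨a, ha, ha'⟩ := CC_attain h1 (f : E →ₗ[ℝ] ℝ)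
    obtain ⟨b, hb, hb'⟩ := CC_attain h2 (f : E →ₗ[ℝ] ℝ)
    have h3 := hf (a + b) (add_mem_add ha hb)
    have h4 := hw (f : E →ₗ[ℝ] ℝ)
    simp only [← ha', ← hb'] at h4
    rw [map_add] at h3
    simp only [ContinuousLinearMap.coe_coe] at h4
    linarith
  · rintro _ ⟨a, ha, b, hb, rfl⟩ ξ
    simp only [map_add]
    exact add_le_add (ha ξ) (hb ξ)

/-- Upper semicontinuity from pointwise upper semicontinuity of support functions. -/
lemma CC_usc {Hs : ℕ → (E →ₗ[ℝ] ℝ) → ℝ} {H : (E →ₗ[ℝ] ℝ) → ℝ}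
    (h : ∀ ξ, ∀ ε > 0, ∀ᶠ j in atTop, Hs j ξ ≤ H ξ + ε) {D : Set E}
    (hD : (0 : E) ∈ interior D) : ∃ j0 : ℕ, ∀ j, j0 ≤ j → CC (Hs j) ⊆ CC H + D := by
  by_contra hcon
  have hfreq : ∃ᶠ j in atTop, ¬ (CC (Hs j) ⊆ CC H + D) := by
    rw [Filter.Frequently]
    intro hev
    simp only [not_not] at hev
    obtain ⟨j0, hj0⟩ := eventually_atTop.1 hev
    exact hcon ⟨j0, fun j hj => hj0 j hj⟩
  -- uniform bound
  set b := Module.finBasis ℝ E
  have hbd : ∀ᶠ j in atTop, ∀ i, Hs j (b.coord i) ≤ H (b.coord i) + 1 ∧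
      Hs j (-b.coord i) ≤ H (-b.coord i) + 1 :=
    eventually_all.2 fun i => (h _ 1 one_pos).and (h _ 1 one_pos)
  set R : ℝ := ∑ i, (max (H (b.coord i)) (H (-b.coord i)) + 1) * ‖b i‖ with hR
  obtain ⟨φ, hφ, hφ'⟩ := extraction_of_frequently_atTop (hfreq.and_eventually hbd)
  have hch : ∀ k, ∃ w, w ∈ CC (Hs (φ k)) ∧ w ∉ CC H + D := fun k => by
    have := (hφ' k).1
    rw [not_subset] at this
    exact this
  choose w hw hw' using hch
  have hwR : ∀ k, w k ∈ Metric.closedBall (0 : E) R := by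
    intro k
    rw [mem_closedBall_zero_iff]
    calc ‖w k‖ = ‖∑ i, b.coord i (w k) • b i‖ := by
          conv_lhs => rw [← b.sum_repr (w k)]
          rfl
      _ ≤ ∑ i, ‖b.coord i (w k) • b i‖ := norm_sum_le _ _
      _ ≤ R := by
          refine Finset.sum_le_sum fun i _ => ?_
          rw [norm_smul, Real.norm_eq_abs]
          refine mul_le_mul_of_nonneg_right ?_ (norm_nonneg _)
          have h1 := hw k (b.coord i)
          have h2 := hw k (-b.coord i)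
          rw [LinearMap.neg_apply] at h2
          obtain ⟨h3, h4⟩ := (hφ' k).2 i
          have h5 := le_max_left (H (b.coord i)) (H (-b.coord i))
          have h6 := le_max_right (H (b.coord i)) (H (-b.coord i))
          exact abs_le'.2 ⟨by linarith, by linarith⟩
  obtain ⟨a, _, ψ, hψ, hlim⟩ := (isCompact_closedBall (0 : E) R).tendsto_subseq hwR
  have haH : a ∈ CC H := by
    intro ξ
    refine le_of_forall_pos_le_add fun ε hε => ?_
    have hc : Tendsto (fun k => ξ (w (ψ k))) atTop (𝓝 (ξ a)) :=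
      (ξ.continuous_of_finiteDimensional.tendsto a).comp hlim
    refine le_of_tendsto hc ?_
    have : Tendsto (fun k => φ (ψ k)) atTop atTop :=
      hφ.tendsto_atTop.comp hψ.tendsto_atTop
    filter_upwards [this.eventually (h ξ ε hε)] with k hk
    exact (hw (ψ k) ξ).trans hk
  have hsub : Tendsto (fun k => w (ψ k) - a) atTop (𝓝 0) := by
    have := hlim.sub_const a
    rw [sub_self] at this
    exact this
  have hev := hsub.eventually (mem_interior_iff_mem_nhds.1 hD)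
  obtain ⟨k, hk⟩ := hev.exists
  apply hw' (ψ k)
  exact ⟨a, haH, w (ψ k) - a, hk, by simp⟩

end Pool.Agent.helper88.Mink
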