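import Pool.Agent.helper88.Mink.Usc
import Pool.Agent.helper88.Mink.Sublin

set_option autoImplicit false
open MeasureTheory Set Filter Topology Matrix
open scoped Pointwise ENNReal NNReal

namespace Pool.Agent.helper88.Mink

variable {n : ℕ} {E : Type*} [NormedAddCommGroup E] [NormedSpace ℝ E] [FiniteDimensional ℝ E]

/-- the support function of `Φ K` -/
noncomputable def HH (F : (Fin n → ℝ) × (Fin n → ℝ) → E) (K : Set (Fin n → ℝ))
    (ξ : E →ₗ[ℝ] ℝ) : ℝ := ∫ z, max 0 (ξ (F z)) ∂(Th (gauge K) (supp K))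

/-- the Minkowski valuation -/
noncomputable def Phi (F : (Fin n → ℝ) × (Fin n → ℝ) → E) (K : Set (Fin n → ℝ)) : Set E :=
  CC (HH F K)

lemma cont_max {F : (Fin n → ℝ) × (Fin n → ℝ) → E} (hF : Continuous F) (ξ : E →ₗ[ℝ] ℝ) :
    Continuous (fun z => max 0 (ξ (F z))) :=
  continuous_const.max (ξ.continuous_of_finiteDimensional.comp hF)

lemma HH_sub {F : (Fin n → ℝ) × (Fin n → ℝ) → E} (hF : Continuous F) (hn : 0 < n)
    {K : Set (Fin n → ℝ)} (hK : Body K) : Sub (HH F K) where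
  hom := fun c hc ξ => by
    simp only [HH]
    rw [← integral_const_mul]
    congr 1
    ext z
    rw [mul_max_of_nonneg _ _ hc.le]
    simp
  sub := fun ξ η => by
    simp only [HH]
    rw [← integral_add (integrable_Th hn hK.pair (cont_max hF ξ))
      (integrable_Th hn hK.pair (cont_max hF η))]
    refine integral_mono (integrable_Th hn hK.pair (cont_max hF _))
      ((integrable_Th hn hK.pair (cont_max hF ξ)).add
      (integrable_Th hn hK.pair (cont_max hF η))) fun z => ?_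
    simp only [LinearMap.add_apply]
    refine max_le ?_ ?_
    · exact add_nonneg (le_max_left _ _) (le_max_left _ _)
    · exact add_le_add (le_max_right _ _) (le_max_right _ _)

lemma Phi_nonempty {F : (Fin n → ℝ) × (Fin n → ℝ) → E} (hF : Continuous F) (hn : 0 < n)
    {K : Set (Fin n → ℝ)} (hK : Body K) : (Phi F K).Nonempty := CC_nonempty (HH_sub hF hn hK)

lemma Phi_add {F : (Fin n → ℝ) × (Fin n → ℝ) → E} (hF : Continuous F) (hn : 0 < n)
    {K L : Set (Fin n → ℝ)} (hK : Body K) (hL : Body L) (hc : Convex ℝ (K ∪ L)) :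
    Phi F (K ∪ L) + Phi F (K ∩ L) = Phi F K + Phi F L := by
  have hu := hK.union hL hc
  have hi := hK.inter hL
  simp only [Phi]
  rw [← CC_add (HH_sub hF hn hu) (HH_sub hF hn hi), ← CC_add (HH_sub hF hn hK) (HH_sub hF hn hL)]
  congr 1
  ext ξ
  simp only [HH]
  rw [← integral_add_measure (integrable_Th hn hu.pair (cont_max hF ξ))
    (integrable_Th hn hi.pair (cont_max hF ξ)),
    ← integral_add_measure (integrable_Th hn hK.pair (cont_max hF ξ))
    (integrable_Th hn hL.pair (cont_max hF ξ))]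
  congr 1
  have Pu := hu.pair
  have Pi := hi.pair
  rw [hK.gauge_union hL hc, hK.supp_union hL] at Pu ⊢
  rw [hK.gauge_inter hL, hK.supp_inter hL hc] at Pi ⊢
  exact Th_add hn hK.pair hL.pair Pu Pi

lemma Phi_usc {F : (Fin n → ℝ) × (Fin n → ℝ) → E} (hF : Continuous F) (hn : 0 < n)
    {Ks : ℕ → Set (Fin n → ℝ)} {K : Set (Fin n → ℝ)} (hKs : ∀ j, Body (Ks j)) (hK : Body K)
    (hlim : Tendsto (fun j => Metric.hausdorffDist (Ks j) K) atTop (𝓝 0))
    {D : Set E} (hD : (0 : E) ∈ interior D) :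
    ∃ j0 : ℕ, ∀ j, j0 ≤ j → Phi F (Ks j) ⊆ Phi F K + D := by
  refine CC_usc (fun ξ ε hε => ?_) hD
  exact usc_Th hn (fun j => (hKs j).pair) hK.pair (conv_gauge hKs hK hlim)
    (conv_supp hKs hK hlim) (cont_max hF ξ) (fun z => le_max_left _ _) hε

/-! ### invariance -/

lemma map_inf {α β : Type*} [MeasurableSpace α] [MeasurableSpace β] {f : α → β} {g : β → α}
    (hf : Measurable f) (hg : Measurable g) (fg : ∀ x, f (g x) = x) (gf : ∀ x, g (f x) = x)
    (μ ν : Measure α) : (μ ⊓ ν).map f = μ.map f ⊓ ν.map f := by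
  have hfg : f ∘ g = id := funext fg
  have hgf : g ∘ f = id := funext gf
  apply le_antisymm
  · exact le_inf (Measure.map_mono inf_le_left hf) (Measure.map_mono inf_le_right hf)
  · have h1 : ((μ.map f ⊓ ν.map f).map g) ≤ μ ⊓ ν := by
      refine le_inf ?_ ?_
      · calc (μ.map f ⊓ ν.map f).map g ≤ (μ.map f).map g := Measure.map_mono inf_le_left hg
          _ = μ := by rw [Measure.map_map hg hf, hgf, Measure.map_id]
      · calc (μ.map f ⊓ ν.map f).map g ≤ (ν.map f).map g := Measure.map_mono inf_le_right hg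
          _ = ν := by rw [Measure.map_map hg hf, hgf, Measure.map_id]
    calc μ.map f ⊓ ν.map f = ((μ.map f ⊓ ν.map f).map g).map f := by
          rw [Measure.map_map hf hg, hfg, Measure.map_id]
      _ ≤ (μ ⊓ ν).map f := Measure.map_mono h1 hf

/-- the linear equivalence attached to an invertible matrix -/
noncomputable def mEq {B B' : Matrix (Fin n) (Fin n) ℝ} (h : B * B' = 1) (h' : B' * B = 1) :
    (Fin n → ℝ) ≃L[ℝ] (Fin n → ℝ) :=
  (Matrix.toLin'OfInv h' h).toContinuousLinearEquiv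

lemma mEq_apply {B B' : Matrix (Fin n) (Fin n) ℝ} (h : B * B' = 1) (h' : B' * B = 1)
    (x : Fin n → ℝ) : mEq h h' x = B *ᵥ x := by
  simp [mEq, Matrix.toLin'OfInv]

lemma grad_comp {B B' : Matrix (Fin n) (Fin n) ℝ} (h : B * B' = 1) (h' : B' * B = 1)
    (p : (Fin n → ℝ) → ℝ) (v : Fin n → ℝ) :
    grad (fun x => p (B' *ᵥ x)) (B *ᵥ v) = B'ᵀ *ᵥ grad p v := by
  have h1 := (mEq h h').comp_right_fderiv (f := fun x => p (B' *ᵥ x)) (x := v)
  have h2 : (fun x => p (B' *ᵥ x)) ∘ (mEq h h') = p := by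
    ext x
    simp only [Function.comp_apply, mEq_apply, mulVec_mulVec, h', one_mulVec]
  rw [h2, mEq_apply] at h1
  have h3 : ∀ z, z ⬝ᵥ grad p v = z ⬝ᵥ (Bᵀ *ᵥ grad (fun x => p (B' *ᵥ x)) (B *ᵥ v)) := by
    intro z
    rw [dot_grad, h1]
    have : z ⬝ᵥ (Bᵀ *ᵥ grad (fun x => p (B' *ᵥ x)) (B *ᵥ v)) =
        (B *ᵥ z) ⬝ᵥ grad (fun x => p (B' *ᵥ x)) (B *ᵥ v) := by
      rw [dotProduct_transpose_mulVec, dotProduct_comm]
    rw [this, dot_grad, ContinuousLinearMap.comp_apply]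
    congr 1
  have h4 : grad p v = Bᵀ *ᵥ grad (fun x => p (B' *ᵥ x)) (B *ᵥ v) := by
    ext i
    have := h3 (Pi.single i 1)
    simpa using this
  rw [h4, mulVec_mulVec, ← transpose_mul, h, transpose_one, one_mulVec]

lemma mulVec_measurable (B : Matrix (Fin n) (Fin n) ℝ) :
    Measurable (fun x : Fin n → ℝ => B *ᵥ x) :=
  (Continuous.matrix_mulVec continuous_const continuous_id).measurable

lemma map_volume {B : Matrix (Fin n) (Fin n) ℝ} (hB : B.det = 1) :
    (volume : Measure (Fin n → ℝ)).map (fun x => B *ᵥ x) = volume := by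
  have h := Real.map_matrix_volume_pi_eq_smul_volume_pi (M := B) (by rw [hB]; exact one_ne_zero)
  rw [hB] at h
  have e : (fun x : Fin n → ℝ => B *ᵥ x) = toLin' B := by
    ext x : 1
    simp
  rw [e, h]
  simp

lemma M_comp {B B' : Matrix (Fin n) (Fin n) ℝ} (h : B * B' = 1) (h' : B' * B = 1)
    (hB : B.det = 1) {p : (Fin n → ℝ) → ℝ} (hp : Nice p)
    (hq : Nice (fun x => p (B' *ᵥ x))) :
    M (fun x => p (B' *ᵥ x)) =
      (M p).map (fun z => (B *ᵥ z.1, B'ᵀ *ᵥ z.2)) := by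
  have hpm : ∀ v, p (B' *ᵥ (B *ᵥ v)) = p v := by
    intro v
    rw [mulVec_mulVec, h', one_mulVec]
  have m1 : Measurable (fun z : (Fin n → ℝ) × (Fin n → ℝ) => (B *ᵥ z.1, B'ᵀ *ᵥ z.2)) :=
    ((mulVec_measurable B).comp measurable_fst).prodMk
      ((mulVec_measurable B'ᵀ).comp measurable_snd)
  have hset : MeasurableSet {x : Fin n → ℝ | p (B' *ᵥ x) ≤ 1} :=
    (hq.isClosed 1).measurableSet
  rw [M, M, Measure.map_map m1 (measurable_nb hp)]
  conv_lhs => rw [← map_volume hB]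
  rw [Measure.restrict_map (mulVec_measurable B) hset,
    Measure.map_map (measurable_nb hq) (mulVec_measurable B)]
  have e1 : ((fun x : Fin n → ℝ => B *ᵥ x) ⁻¹' {x | p (B' *ᵥ x) ≤ 1}) = {v | p v ≤ 1} := by
    ext v
    simp only [mem_preimage, mem_ofPred_eq, hpm]
  rw [e1]
  congr 1
  ext1 v
  simp only [Function.comp_apply, nb, hpm, grad_comp h h']
  rw [mulVec_smul]

lemma Th_comp {B B' : Matrix (Fin n) (Fin n) ℝ} (h : B * B' = 1) (h' : B' * B = 1)
    (hB : B.det = 1) {p k : (Fin n → ℝ) → ℝ} (hp : Nice p) (hk : Nice k)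
    (hq : Nice (fun x => p (B' *ᵥ x))) (hl : Nice (fun y => k (Bᵀ *ᵥ y))) :
    Th (fun x => p (B' *ᵥ x)) (fun y => k (Bᵀ *ᵥ y)) =
      (Th p k).map (fun z => (B *ᵥ z.1, B'ᵀ *ᵥ z.2)) := by
  have g1 : B'ᵀ * Bᵀ = 1 := by rw [← transpose_mul, h, transpose_one]
  have g2 : Bᵀ * B'ᵀ = 1 := by rw [← transpose_mul, h', transpose_one]
  have hB' : B'ᵀ.det = 1 := by
    have := congrArg Matrix.det h
    rw [det_mul, hB, one_mul, det_one] at this
    rw [det_transpose, this]
  have m1 : Measurable (fun z : (Fin n → ℝ) × (Fin n → ℝ) => (B *ᵥ z.1, B'ᵀ *ᵥ z.2)) :=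
    ((mulVec_measurable B).comp measurable_fst).prodMk
      ((mulVec_measurable B'ᵀ).comp measurable_snd)
  have m2 : Measurable (fun z : (Fin n → ℝ) × (Fin n → ℝ) => (B' *ᵥ z.1, Bᵀ *ᵥ z.2)) :=
    ((mulVec_measurable B').comp measurable_fst).prodMk
      ((mulVec_measurable Bᵀ).comp measurable_snd)
  have m3 : Measurable (fun z : (Fin n → ℝ) × (Fin n → ℝ) => (B'ᵀ *ᵥ z.1, B *ᵥ z.2)) :=
    ((mulVec_measurable B'ᵀ).comp measurable_fst).prodMk
      ((mulVec_measurable B).comp measurable_snd)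
  rw [Th, Th, map_inf m1 m2]
  · rw [M_comp h h' hB hp hq]
    congr 1
    have := M_comp g1 g2 hB' hk hl
    rw [transpose_transpose] at this
    rw [this, Measure.map_map measurable_swap m3, Measure.map_map m1 measurable_swap]
    rfl
  · intro z
    simp only [mulVec_mulVec, h, g1, one_mulVec]
  · intro z
    simp only [mulVec_mulVec, h', g2, one_mulVec]

lemma body_image {B B' : Matrix (Fin n) (Fin n) ℝ} (h : B * B' = 1) (h' : B' * B = 1)
    {K : Set (Fin n → ℝ)} (hK : Body K) : Body ((fun x => B *ᵥ x) '' K) where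
  comp := hK.comp.image (Continuous.matrix_mulVec continuous_const continuous_id)
  conv := hK.conv.linear_image (Matrix.toLin' B)
  zint := by
    have h1 : (fun x => B *ᵥ x) '' K = (mEq h h') '' K := by
      ext x
      simp only [mem_image, mEq_apply]
    rw [h1, ← (mEq h h').coe_toHomeomorph, ← Homeomorph.image_interior]
    exact ⟨0, hK.zint, by simp⟩

lemma gauge_image {B B' : Matrix (Fin n) (Fin n) ℝ} (h : B * B' = 1) (h' : B' * B = 1)
    {K : Set (Fin n → ℝ)} (hK : Body K) :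
    gauge ((fun x => B *ᵥ x) '' K) = fun x => gauge K (B' *ᵥ x) := by
  refine (body_image h h' hK).gauge_eq_of_mem ?_ ?_ ?_ ?_
  · simp [hK.nice_gauge.zero]
  · intro x hx
    refine hK.nice_gauge.pos _ fun h0 => hx ?_
    have : B *ᵥ (B' *ᵥ x) = 0 := by rw [h0, mulVec_zero]
    rwa [mulVec_mulVec, h, one_mulVec] at this
  · intro t ht v
    rw [mulVec_smul, hK.nice_gauge.hom t ht]
  · intro x
    rw [← hK.mem_iff]
    constructor
    · rintro ⟨u, hu, rfl⟩
      simp only [mulVec_mulVec, h', one_mulVec]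
      exact hu
    · intro hx
      exact ⟨_, hx, by simp only [mulVec_mulVec, h, one_mulVec]⟩

lemma supp_image {B : Matrix (Fin n) (Fin n) ℝ} {K : Set (Fin n → ℝ)} :
    supp ((fun x => B *ᵥ x) '' K) = fun y => supp K (Bᵀ *ᵥ y) := by
  ext y
  simp only [supp, image_image]
  congr 1
  ext t
  simp only [mem_image]
  constructor
  · rintro ⟨x, hx, rfl⟩
    exact ⟨x, hx, by rw [dotProduct_transpose_mulVec, dotProduct_comm]⟩
  · rintro ⟨x, hx, rfl⟩
    exact ⟨x, hx, by rw [dotProduct_transpose_mulVec, dotProduct_comm]⟩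

lemma HH_image {F : (Fin n → ℝ) × (Fin n → ℝ) → E} (hF : Continuous F)
    {B B' : Matrix (Fin n) (Fin n) ℝ} (h : B * B' = 1) (h' : B' * B = 1) (hB : B.det = 1)
    {K : Set (Fin n → ℝ)} (hK : Body K) {R : E →ₗ[ℝ] E}
    (hR : ∀ x y, F (B *ᵥ x, B'ᵀ *ᵥ y) = R (F (x, y))) (ξ : E →ₗ[ℝ] ℝ) :
    HH F ((fun x => B *ᵥ x) '' K) ξ = HH F K (ξ ∘ₗ R) := by
  have hb := body_image h h' hK
  have m1 : Measurable (fun z : (Fin n → ℝ) × (Fin n → ℝ) => (B *ᵥ z.1, B'ᵀ *ᵥ z.2)) :=
    ((mulVec_measurable B).comp measurable_fst).prodMk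
      ((mulVec_measurable B'ᵀ).comp measurable_snd)
  have n1 := hb.nice_gauge
  have n2 := hb.nice_supp
  rw [gauge_image h h' hK] at n1
  rw [supp_image] at n2
  rw [HH, HH, gauge_image h h' hK, supp_image, Th_comp h h' hB hK.nice_gauge hK.nice_supp n1 n2,
    integral_map m1.aemeasurable (cont_max hF ξ).aestronglyMeasurable]
  congr 1
  ext z
  rw [hR]
  rfl

lemma Phi_image {F : (Fin n → ℝ) × (Fin n → ℝ) → E} (hF : Continuous F)
    {B B' : Matrix (Fin n) (Fin n) ℝ} (h : B * B' = 1) (h' : B' * B = 1) (hB : B.det = 1)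
    {K : Set (Fin n → ℝ)} (hK : Body K) {R R' : E →ₗ[ℝ] E} (hRR : ∀ w, R (R' w) = w)
    (hRR' : ∀ w, R' (R w) = w)
    (hR : ∀ x y, F (B *ᵥ x, B'ᵀ *ᵥ y) = R (F (x, y))) :
    Phi F ((fun x => B *ᵥ x) '' K) = R '' Phi F K := by
  ext w
  constructor
  · intro hw
    refine ⟨R' w, fun η => ?_, hRR w⟩
    have h1 := hw (η ∘ₗ R')
    rw [HH_image hF h h' hB hK hR] at h1
    have h2 : (η ∘ₗ R') ∘ₗ R = η := by
      ext u
      simp [hRR']
    rw [h2] at h1
    exact h1
  · rintro ⟨u, hu, rfl⟩ ξ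
    rw [HH_image hF h h' hB hK hR]
    exact hu (ξ ∘ₗ R)

end Pool.Agent.helper88.Mink
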