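import Pool.Agent.helper88.Mink.Weak

set_option autoImplicit false
open MeasureTheory Set Filter Topology Matrix
open scoped Pointwise ENNReal NNReal

namespace Pool.Agent.helper88.Mink

variable {n : ℕ}

lemma exists_decomp {α : Type*} [MeasurableSpace α] (μ ν : Measure α) [IsFiniteMeasure μ]
    [IsFiniteMeasure ν] : ∃ S, MeasurableSet S ∧ μ ⊓ ν = μ.restrict S + ν.restrict Sᶜ := by
  obtain ⟨S, hS⟩ := exists_isHahnDecomposition μ ν
  have hSm := hS.measurableSet
  refine ⟨S, hSm, le_antisymm ?_ ?_⟩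
  · rw [Measure.le_iff]
    intro A hA
    rw [Measure.add_apply, Measure.restrict_apply hA, Measure.restrict_apply hA,
      ← measure_inter_add_sdiff A hSm]
    exact add_le_add (Measure.le_iff'.1 inf_le_left _) (Measure.le_iff'.1 inf_le_right _)
  · refine le_inf ?_ ?_
    · calc μ.restrict S + ν.restrict Sᶜ ≤ μ.restrict S + μ.restrict Sᶜ :=
            add_le_add_right hS.ge_on_compl _
        _ = μ := Measure.restrict_add_restrict_compl hSm
    · calc μ.restrict S + ν.restrict Sᶜ ≤ ν.restrict S + ν.restrict Sᶜ :=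
            add_le_add_left hS.le_on _
        _ = ν := Measure.restrict_add_restrict_compl hSm

lemma exists_approx (μ : Measure ((Fin n → ℝ) × (Fin n → ℝ))) [IsFiniteMeasure μ]
    {S : Set ((Fin n → ℝ) × (Fin n → ℝ))} (hS : MeasurableSet S) {ε : ℝ} (hε : 0 < ε) :
    ∃ φ : (Fin n → ℝ) × (Fin n → ℝ) → ℝ, Continuous φ ∧ (∀ z, 0 ≤ φ z) ∧ (∀ z, φ z ≤ 1) ∧
      ∫ z, |φ z - indicator S (fun _ => (1 : ℝ)) z| ∂μ ≤ ε := by
  have hint : Integrable (indicator S (fun _ => (1 : ℝ))) μ :=
    (integrable_const (1 : ℝ)).indicator hS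
  obtain ⟨g, hg, hgi⟩ := hint.exists_boundedContinuous_integral_sub_le hε
  refine ⟨fun z => max 0 (min 1 (g z)), by fun_prop, fun z => le_max_left _ _,
    fun z => max_le zero_le_one (min_le_left _ _), ?_⟩
  refine le_trans (integral_mono_of_nonneg ?_ (hint.sub hgi).norm ?_) hg
  · exact Eventually.of_forall fun z => abs_nonneg _
  · refine Eventually.of_forall fun z => ?_
    simp only [Real.norm_eq_abs, Pi.sub_apply]
    by_cases hz : z ∈ S
    · simp only [indicator_of_mem hz]
      rcases le_total (g z) 0 with h | h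
      · rw [min_eq_right (h.trans zero_le_one), max_eq_left h, zero_sub, abs_neg, abs_one]
        rw [abs_of_nonneg (by linarith)]
        linarith
      · rcases le_total (g z) 1 with h' | h'
        · rw [min_eq_right h', max_eq_right h, abs_sub_comm]
        · rw [min_eq_left h', max_eq_right zero_le_one]
          simp
    · simp only [indicator_of_notMem hz]
      rcases le_total (g z) 0 with h | h
      · rw [min_eq_right (h.trans zero_le_one), max_eq_left h]
        simp
      · rcases le_total (g z) 1 with h' | h'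
        · rw [min_eq_right h', max_eq_right h, abs_sub_comm]
        · rw [min_eq_left h', max_eq_right zero_le_one, sub_zero, abs_one, zero_sub, abs_neg,
            abs_of_nonneg h]
          exact h'

lemma ae_M {p h : (Fin n → ℝ) → ℝ} (hn : 0 < n) (P : Pair p h) :
    ∀ᵐ z ∂(M p), z ∈ {x | p x ≤ 1} ×ˢ {y | h y ≤ 1} := by
  have hm : MeasurableSet {z : (Fin n → ℝ) × (Fin n → ℝ) | z ∈ {x | p x ≤ 1} ×ˢ {y | h y ≤ 1}} :=
    ((P.np.isClosed 1).measurableSet.prod (P.nh.isClosed 1).measurableSet)
  rw [M]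
  refine (ae_map_iff (measurable_nb P.np).aemeasurable hm).2 ?_
  refine ae_restrict_of_ae ?_
  filter_upwards [P.np.ae_diff, ae_ne_zero hn] with v hd hv
  obtain ⟨h1, h2, _⟩ := nb_spec P hv hd
  exact ⟨h1.le, h2⟩

lemma ae_N {p h : (Fin n → ℝ) → ℝ} (hn : 0 < n) (P : Pair p h) :
    ∀ᵐ z ∂((M h).map Prod.swap), z ∈ {x | p x ≤ 1} ×ˢ {y | h y ≤ 1} := by
  have hm : MeasurableSet {z : (Fin n → ℝ) × (Fin n → ℝ) | z ∈ {x | p x ≤ 1} ×ˢ {y | h y ≤ 1}} :=
    ((P.np.isClosed 1).measurableSet.prod (P.nh.isClosed 1).measurableSet)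
  refine (ae_map_iff measurable_swap.aemeasurable hm).2 ?_
  filter_upwards [ae_M hn P.symm] with z hz
  exact ⟨hz.2, hz.1⟩

lemma N_finite {h : (Fin n → ℝ) → ℝ} (hh : Nice h) :
    IsFiniteMeasure ((M h).map (Prod.swap : (Fin n → ℝ) × (Fin n → ℝ) → _)) := by
  have := M_finite hh
  infer_instance

lemma exists_bound {p h : (Fin n → ℝ) → ℝ} (P : Pair p h)
    {g : (Fin n → ℝ) × (Fin n → ℝ) → ℝ} (hg : Continuous g) (r : ℝ) :
    ∃ C, 0 ≤ C ∧ ∀ z ∈ {x | p x ≤ r} ×ˢ {y | h y ≤ r}, |g z| ≤ C := by
  obtain ⟨C, hC⟩ := ((P.np.isCompact r).prod (P.nh.isCompact r)).exists_bound_of_continuousOn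
    hg.continuousOn
  exact ⟨max C 0, le_max_right _ _, fun z hz => (hC z hz).trans (le_max_left _ _)⟩

lemma integrable_M {p h : (Fin n → ℝ) → ℝ} (hn : 0 < n) (P : Pair p h)
    {g : (Fin n → ℝ) × (Fin n → ℝ) → ℝ} (hg : Continuous g) : Integrable g (M p) := by
  have := M_finite P.np
  obtain ⟨C, _, hC⟩ := exists_bound P hg 1
  refine Integrable.of_bound hg.aestronglyMeasurable C ?_
  filter_upwards [ae_M hn P] with z hz using hC z hz

lemma integrable_N {p h : (Fin n → ℝ) → ℝ} (hn : 0 < n) (P : Pair p h)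
    {g : (Fin n → ℝ) × (Fin n → ℝ) → ℝ} (hg : Continuous g) :
    Integrable g ((M h).map Prod.swap) := by
  have := N_finite P.nh
  obtain ⟨C, _, hC⟩ := exists_bound P hg 1
  refine Integrable.of_bound hg.aestronglyMeasurable C ?_
  filter_upwards [ae_N hn P] with z hz using hC z hz

lemma integrable_Th {p h : (Fin n → ℝ) → ℝ} (hn : 0 < n) (P : Pair p h)
    {g : (Fin n → ℝ) × (Fin n → ℝ) → ℝ} (hg : Continuous g) : Integrable g (Th p h) :=
  (integrable_M hn P hg).mono_measure (Th_le_left p h)

lemma integral_N {h : (Fin n → ℝ) → ℝ}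
    {g : (Fin n → ℝ) × (Fin n → ℝ) → ℝ} (hg : Continuous g) :
    ∫ z, g z ∂((M h).map Prod.swap) = ∫ z, g z.swap ∂(M h) :=
  integral_map measurable_swap.aemeasurable hg.aestronglyMeasurable

/-- upper semicontinuity of the integrals against the meet -/
lemma usc_Th {ps hs : ℕ → (Fin n → ℝ) → ℝ} {p h : (Fin n → ℝ) → ℝ} (hn : 0 < n)
    (Ps : ∀ j, Pair (ps j) (hs j)) (P : Pair p h) (hcp : Conv ps p) (hch : Conv hs h)
    {g : (Fin n → ℝ) × (Fin n → ℝ) → ℝ} (hg : Continuous g) (hg0 : ∀ z, 0 ≤ g z)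
    {ε : ℝ} (hε : 0 < ε) :
    ∀ᶠ j in atTop, ∫ z, g z ∂(Th (ps j) (hs j)) ≤ ∫ z, g z ∂(Th p h) + ε := by
  have f1 := M_finite P.np
  have f2 := N_finite P.nh
  obtain ⟨S, hS, hdec⟩ := exists_decomp (M p) ((M h).map Prod.swap)
  obtain ⟨C, hC0, hC⟩ := exists_bound P hg 1
  obtain ⟨φ, hφc, hφ0, hφ1, hφ⟩ := exists_approx (M p + (M h).map Prod.swap) hS
    (show 0 < ε / (2 * (C + 1)) by positivity)
  -- limits
  have l1 := weak_M hn Ps P hcp hch (g := fun z => g z * φ z) (by fun_prop)
  have l2 : Tendsto (fun j => ∫ z, g z * (1 - φ z) ∂((M (hs j)).map Prod.swap)) atTop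
      (𝓝 (∫ z, g z * (1 - φ z) ∂((M h).map Prod.swap))) := by
    rw [integral_N (by fun_prop)]
    have e : ∀ j, ∫ z, g z * (1 - φ z) ∂((M (hs j)).map Prod.swap) =
        ∫ z, g z.swap * (1 - φ z.swap) ∂(M (hs j)) := fun j => integral_N (by fun_prop)
    simp_rw [e]
    exact weak_M hn (fun j => (Ps j).symm) P.symm hch hcp
      (g := fun z => g z.swap * (1 - φ z.swap)) (by
        have : Continuous (Prod.swap : (Fin n → ℝ) × (Fin n → ℝ) → _) := continuous_swap
        fun_prop)
  have l3 := l1.add l2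
  -- the limit value
  have hI1 : Integrable (fun z => g z * (φ z - indicator S (fun _ => (1 : ℝ)) z)) (M p) := by
    have h1 := integrable_M hn P (g := fun z => g z * φ z) (by fun_prop)
    have h2 := (integrable_M hn P hg).indicator hS
    refine (h1.sub h2).congr (Eventually.of_forall fun z => ?_)
    by_cases hz : z ∈ S
    · simp [hz, mul_sub]
    · simp [hz]
  have hI2 : Integrable (fun z => g z * (φ z - indicator S (fun _ => (1 : ℝ)) z))
      ((M h).map Prod.swap) := by
    have h1 := integrable_N hn P (g := fun z => g z * φ z) (by fun_prop)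
    have h2 := (integrable_N hn P hg).indicator hS
    refine (h1.sub h2).congr (Eventually.of_forall fun z => ?_)
    by_cases hz : z ∈ S
    · simp [hz, mul_sub]
    · simp [hz]
  have hval : (∫ z, g z * φ z ∂(M p)) + ∫ z, g z * (1 - φ z) ∂((M h).map Prod.swap) =
      ∫ z, g z ∂(Th p h) + ((∫ z, g z * (φ z - indicator S (fun _ => (1 : ℝ)) z) ∂(M p)) -
        ∫ z, g z * (φ z - indicator S (fun _ => (1 : ℝ)) z) ∂((M h).map Prod.swap)) := by
    have e0 : ∫ z, g z ∂(Th p h) = (∫ z in S, g z ∂(M p)) +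
        ∫ z in Sᶜ, g z ∂((M h).map Prod.swap) := by
      rw [Th, hdec, integral_add_measure]
      · exact (integrable_M hn P hg).restrict
      · exact (integrable_N hn P hg).restrict
    have e1 : ∫ z, g z * (φ z - indicator S (fun _ => (1 : ℝ)) z) ∂(M p) =
        (∫ z, g z * φ z ∂(M p)) - ∫ z in S, g z ∂(M p) := by
      rw [← integral_indicator hS, ← integral_sub]
      · congr 1
        ext z
        by_cases hz : z ∈ S
        · simp [hz, mul_sub]
        · simp [hz]
      · exact integrable_M hn P (g := fun z => g z * φ z) (by fun_prop)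
      · exact (integrable_M hn P hg).indicator hS
    have e2 : ∫ z, g z * (φ z - indicator S (fun _ => (1 : ℝ)) z) ∂((M h).map Prod.swap) =
        (∫ z in Sᶜ, g z ∂((M h).map Prod.swap)) -
          ∫ z, g z * (1 - φ z) ∂((M h).map Prod.swap) := by
      rw [← integral_indicator hS.compl, ← integral_sub]
      · congr 1
        ext z
        by_cases hz : z ∈ S
        · simp [hz]; ring
        · simp [hz]; ring
      · exact (integrable_N hn P hg).indicator hS.compl
      · exact integrable_N hn P (g := fun z => g z * (1 - φ z)) (by fun_prop)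
    rw [e0, e1, e2]
    ring
  have hbd : ((∫ z, g z * (φ z - indicator S (fun _ => (1 : ℝ)) z) ∂(M p)) -
        ∫ z, g z * (φ z - indicator S (fun _ => (1 : ℝ)) z) ∂((M h).map Prod.swap)) ≤ ε / 2 := by
    have hIa : ∀ (μ : Measure ((Fin n → ℝ) × (Fin n → ℝ))) [IsFiniteMeasure μ],
        Integrable (fun z => |φ z - indicator S (fun _ => (1 : ℝ)) z|) μ := by
      intro μ _
      refine Integrable.of_bound ((hφc.measurable.sub
        (measurable_const.indicator hS)).abs.aestronglyMeasurable) 1 ?_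
      refine Eventually.of_forall fun z => ?_
      rw [Real.norm_eq_abs, abs_abs]
      by_cases hz : z ∈ S
      · simp only [indicator_of_mem hz]
        rw [abs_le]
        constructor <;> linarith [hφ0 z, hφ1 z]
      · simp only [indicator_of_notMem hz, sub_zero]
        rw [abs_le]
        constructor <;> linarith [hφ0 z, hφ1 z]
    have k1 : ∫ z, g z * (φ z - indicator S (fun _ => (1 : ℝ)) z) ∂(M p) ≤
        C * ∫ z, |φ z - indicator S (fun _ => (1 : ℝ)) z| ∂(M p) := by
      rw [← integral_const_mul]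
      refine integral_mono_ae hI1 ((hIa _).const_mul C) ?_
      filter_upwards [ae_M hn P] with z hz
      have h1 := hC z hz
      rw [abs_of_nonneg (hg0 z)] at h1
      have h2 := le_abs_self (φ z - indicator S (fun _ => (1 : ℝ)) z)
      have h3 := abs_nonneg (φ z - indicator S (fun _ => (1 : ℝ)) z)
      nlinarith [hg0 z]
    have k2 : -∫ z, g z * (φ z - indicator S (fun _ => (1 : ℝ)) z) ∂((M h).map Prod.swap) ≤
        C * ∫ z, |φ z - indicator S (fun _ => (1 : ℝ)) z| ∂((M h).map Prod.swap) := by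
      rw [← integral_const_mul, ← integral_neg]
      refine integral_mono_ae hI2.neg ((hIa _).const_mul C) ?_
      filter_upwards [ae_N hn P] with z hz
      have h1 := hC z hz
      rw [abs_of_nonneg (hg0 z)] at h1
      have h2 := neg_abs_le (φ z - indicator S (fun _ => (1 : ℝ)) z)
      have h3 := abs_nonneg (φ z - indicator S (fun _ => (1 : ℝ)) z)
      nlinarith [hg0 z]
    rw [integral_add_measure (hIa _) (hIa _)] at hφ
    have k3 : C * (ε / (2 * (C + 1))) ≤ ε / 2 := by
      rw [mul_div_assoc', div_le_div_iff₀ (by positivity) (by positivity)]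
      nlinarith
    nlinarith
  -- conclusion
  have hlt : (∫ z, g z * φ z ∂(M p)) + ∫ z, g z * (1 - φ z) ∂((M h).map Prod.swap) <
      ∫ z, g z ∂(Th p h) + ε := by
    rw [hval]; linarith
  filter_upwards [(tendsto_order.1 l3).2 _ hlt] with j hj
  refine le_trans ?_ hj.le
  have hsplit : ∫ z, g z ∂(Th (ps j) (hs j)) = (∫ z, g z * φ z ∂(Th (ps j) (hs j))) +
      ∫ z, g z * (1 - φ z) ∂(Th (ps j) (hs j)) := by
    rw [← integral_add]
    · congr 1
      ext z
      ring
    · exact integrable_Th hn (Ps j) (g := fun z => g z * φ z) (by fun_prop)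
    · exact integrable_Th hn (Ps j) (g := fun z => g z * (1 - φ z)) (by fun_prop)
  rw [hsplit]
  refine add_le_add ?_ ?_
  · refine integral_mono_measure (Th_le_left _ _) ?_ ?_
    · exact Eventually.of_forall fun z => mul_nonneg (hg0 z) (hφ0 z)
    · exact integrable_M hn (Ps j) (g := fun z => g z * φ z) (by fun_prop)
  · refine integral_mono_measure (Th_le_right _ _) ?_ ?_
    · exact Eventually.of_forall fun z => mul_nonneg (hg0 z) (by simp only [sub_nonneg]; exact hφ1 z)
    · exact integrable_N hn (Ps j) (g := fun z => g z * (1 - φ z)) (by fun_prop)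

end Pool.Agent.helper88.Mink
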