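import Pool.Agent.helper88.Mink.Meas

set_option autoImplicit false
open MeasureTheory Set Filter Topology Matrix
open scoped Pointwise ENNReal NNReal

namespace Pool.Agent.helper88.Mink

variable {n : ℕ}

lemma Conv.tendsto {ps : ℕ → (Fin n → ℝ) → ℝ} {p : (Fin n → ℝ) → ℝ} (hps : ∀ j, Nice (ps j))
    (hp : Nice p) (hc : Conv ps p) (v : Fin n → ℝ) :
    Tendsto (fun j => ps j v) atTop (𝓝 (p v)) := by
  rw [Metric.tendsto_atTop']
  intro ε hε
  have hpv := hp.nonneg v
  set δ : ℝ := min 1 (ε / (4 * (p v + 1))) with hδ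
  have hδ0 : 0 < δ := by
    rw [hδ]
    exact lt_min one_pos (by positivity)
  have hδ1 : δ ≤ 1 := min_le_left _ _
  have hδ2 : δ * (4 * (p v + 1)) ≤ ε := by
    rw [← le_div_iff₀ (by positivity)]
    exact min_le_right _ _
  obtain ⟨N, hN⟩ := eventually_atTop.1 (hc δ hδ0)
  refine ⟨N, fun j hj => ?_⟩
  obtain ⟨h1, h2⟩ := hN j hj.le v
  have h3 := (hps j).nonneg v
  rw [Real.dist_eq, abs_lt]
  have h4 : ps j v ≤ 2 * p v := by nlinarith
  constructor
  · nlinarith
  · nlinarith

lemma grad_tendsto {ps hs : ℕ → (Fin n → ℝ) → ℝ} {p h : (Fin n → ℝ) → ℝ}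
    (Ps : ∀ j, Pair (ps j) (hs j)) (P : Pair p h) (hcp : Conv ps p) (hch : Conv hs h)
    {v : Fin n → ℝ} (hd : DifferentiableAt ℝ p v) (hds : ∀ j, DifferentiableAt ℝ (ps j) v) :
    Tendsto (fun j => grad (ps j) v) atTop (𝓝 (grad p v)) := by
  refine tendsto_of_subseq_tendsto fun ns hns => ?_
  have hev : ∀ᶠ k in atTop, grad (ps (ns k)) v ∈ {y | h y ≤ 2} := by
    filter_upwards [hns.eventually (hch 1 one_pos)] with k hk
    have h1 := (hk (grad (ps (ns k)) v)).2
    have h2 := ((Ps (ns k)).grad_spec (hds (ns k))).1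
    change h (grad (ps (ns k)) v) ≤ 2
    linarith
  obtain ⟨y, _, φ, hφ, hlim⟩ := (P.nh.isCompact 2).tendsto_subseq' hev.frequently
  refine ⟨φ, ?_⟩
  have hns' : Tendsto (fun k => ns (φ k)) atTop atTop := hns.comp hφ.tendsto_atTop
  have hy1 : h y ≤ 1 := by
    refine le_of_forall_pos_le_add fun ε hε => ?_
    have h1 : ∀ᶠ k in atTop, h (grad (ps (ns (φ k))) v) ≤ 1 + ε := by
      filter_upwards [hns'.eventually (hch ε hε)] with k hk
      have h1 := (hk (grad (ps (ns (φ k))) v)).2
      have h2 := ((Ps (ns (φ k))).grad_spec (hds (ns (φ k)))).1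
      nlinarith
    exact le_of_tendsto ((P.nh.cont.tendsto y).comp hlim) h1
  have hy2 : v ⬝ᵥ y = p v := by
    have h1 : Tendsto (fun k => v ⬝ᵥ (grad (ps (ns (φ k))) v)) atTop (𝓝 (v ⬝ᵥ y)) := by
      have hc : Continuous (fun w : Fin n → ℝ => v ⬝ᵥ w) := by
        simp only [dotProduct]
        fun_prop
      exact (hc.tendsto y).comp hlim
    have h2 : Tendsto (fun k => ps (ns (φ k)) v) atTop (𝓝 (p v)) :=
      (hcp.tendsto (fun j => (Ps j).np) P.np v).comp hns'
    have h3 : (fun k => v ⬝ᵥ (grad (ps (ns (φ k))) v)) = fun k => ps (ns (φ k)) v := by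
      ext k
      exact ((Ps _).grad_spec (hds _)).2
    rw [h3] at h1
    exact tendsto_nhds_unique h1 h2
  rw [P.grad_eq hd hy1 hy2]
  exact hlim

lemma ae_ne_one {p : (Fin n → ℝ) → ℝ} (hp : Nice p) :
    ∀ᵐ v ∂(volume : Measure (Fin n → ℝ)), p v ≠ 1 := by
  have hconv : Convex ℝ {v | p v ≤ 1} := by
    intro x hx y hy a b ha hb hab
    simp only [mem_ofPred_eq] at hx hy ⊢
    have h1 := hp.sub (a • x) (b • y)
    rw [hp.hom a ha, hp.hom b hb] at h1
    nlinarith
  have h0 := hconv.addHaar_frontier (volume : Measure (Fin n → ℝ))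
  rw [ae_iff]
  refine measure_mono_null ?_ h0
  intro v hv
  have hv1 : p v = 1 := by simpa using hv
  refine ⟨subset_closure hv1.le, fun hint => ?_⟩
  have h1 : Tendsto (fun t : ℝ => (1 + t) • v) (𝓝[>] 0) (𝓝 v) := by
    have : Tendsto (fun t : ℝ => (1 + t) • v) (𝓝 0) (𝓝 ((1 + 0 : ℝ) • v)) :=
      ((continuous_const.add continuous_id).smul continuous_const).tendsto 0
    rw [add_zero, one_smul] at this
    exact this.mono_left nhdsWithin_le_nhds
  have h2 := (h1.eventually (mem_interior_iff_mem_nhds.1 hint)).and self_mem_nhdsWithin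
  obtain ⟨t, ht, htp⟩ := h2.exists
  have htp' : 0 < t := htp
  have ht' : p ((1 + t) • v) ≤ 1 := ht
  rw [hp.hom _ (by linarith), hv1] at ht'
  linarith

lemma integral_M {p : (Fin n → ℝ) → ℝ} (hp : Nice p)
    {g : (Fin n → ℝ) × (Fin n → ℝ) → ℝ} (hg : Continuous g) :
    ∫ z, g z ∂(M p) = ∫ v, indicator {v | p v ≤ 1} (fun v => g (nb p v)) v := by
  rw [M, integral_map (measurable_nb hp).aemeasurable hg.aestronglyMeasurable,
    integral_indicator (hp.isClosed 1).measurableSet]

lemma weak_M {ps hs : ℕ → (Fin n → ℝ) → ℝ} {p h : (Fin n → ℝ) → ℝ} (hn : 0 < n)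
    (Ps : ∀ j, Pair (ps j) (hs j)) (P : Pair p h) (hcp : Conv ps p) (hch : Conv hs h)
    {g : (Fin n → ℝ) × (Fin n → ℝ) → ℝ} (hg : Continuous g) :
    Tendsto (fun j => ∫ z, g z ∂(M (ps j))) atTop (𝓝 (∫ z, g z ∂(M p))) := by
  rw [integral_M P.np hg]
  simp_rw [fun j => integral_M (Ps j).np hg]
  -- bound of g on a box
  have hbox : IsCompact ({x | p x ≤ 2} ×ˢ {y | h y ≤ 2}) := (P.np.isCompact 2).prod
    (P.nh.isCompact 2)
  obtain ⟨C, hC⟩ := hbox.exists_bound_of_continuousOn hg.continuousOn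
  have hC0 : 0 ≤ C := by
    have := hC (0, 0) ⟨by simp [P.np.zero], by simp [P.nh.zero]⟩
    exact (norm_nonneg _).trans this
  refine tendsto_integral_filter_of_dominated_convergence
    (indicator {v | p v ≤ 2} (fun _ => C)) ?_ ?_ ?_ ?_
  · refine Eventually.of_forall fun j => ?_
    exact ((hg.measurable.comp (measurable_nb (Ps j).np)).indicator
      ((Ps j).np.isClosed 1).measurableSet).aestronglyMeasurable
  · filter_upwards [hcp 1 one_pos, hch 1 one_pos] with j hj hj'
    filter_upwards [(Ps j).np.ae_diff, ae_ne_zero hn] with v hd hv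
    by_cases h1 : ps j v ≤ 1
    · have h2 : p v ≤ 2 := by
        have := (hj v).2
        linarith
      rw [indicator_of_mem (show v ∈ {v | ps j v ≤ 1} from h1),
        indicator_of_mem (show v ∈ {v | p v ≤ 2} from h2)]
      apply hC
      obtain ⟨s1, s2, _⟩ := nb_spec (Ps j) hv hd
      constructor
      · have := (hj (nb (ps j) v).1).2
        simp only [mem_ofPred_eq]
        linarith
      · have := (hj' (nb (ps j) v).2).2
        simp only [mem_ofPred_eq]
        linarith
    · rw [indicator_of_notMem (show v ∉ {v | ps j v ≤ 1} from h1), norm_zero]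
      exact indicator_nonneg (fun _ _ => hC0) v
  · rw [integrable_indicator_iff (P.np.isClosed 2).measurableSet]
    exact integrableOn_const (vol_lt_top P.np 2).ne
  · have hall : ∀ᵐ v ∂(volume : Measure (Fin n → ℝ)), ∀ j, DifferentiableAt ℝ (ps j) v :=
      ae_all_iff.2 fun j => (Ps j).np.ae_diff
    filter_upwards [hall, P.np.ae_diff, ae_ne_zero hn, ae_ne_one P.np] with v hds hd hv h1
    have ht := hcp.tendsto (fun j => (Ps j).np) P.np v
    have hgr := grad_tendsto Ps P hcp hch hd hds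
    rcases lt_or_gt_of_ne h1 with h2 | h2
    · rw [indicator_of_mem (show v ∈ {v | p v ≤ 1} from h2.le)]
      have hev : ∀ᶠ j in atTop, indicator {v | ps j v ≤ 1} (fun v => g (nb (ps j) v)) v =
          g (nb (ps j) v) := by
        filter_upwards [(tendsto_order.1 ht).2 _ h2] with j hj
        exact indicator_of_mem (show v ∈ {v | ps j v ≤ 1} from hj.le) _
      refine Tendsto.congr' (EventuallyEq.symm hev) ?_
      refine (hg.tendsto _).comp ?_
      refine Tendsto.prodMk_nhds ?_ hgr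
      exact (ht.inv₀ (P.np.pos v hv).ne').smul tendsto_const_nhds
    · rw [indicator_of_notMem (show v ∉ {v | p v ≤ 1} from not_le.2 h2)]
      have hev : ∀ᶠ j in atTop, indicator {v | ps j v ≤ 1} (fun v => g (nb (ps j) v)) v = 0 := by
        filter_upwards [(tendsto_order.1 ht).1 _ h2] with j hj
        exact indicator_of_notMem (show v ∉ {v | ps j v ≤ 1} from not_le.2 hj) _
      exact Tendsto.congr' (EventuallyEq.symm hev) tendsto_const_nhds

end Pool.Agent.helper88.Mink
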